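import Mathlib

/-!
# Products of the transfer matrices reach all complex numbers outside the closed unit disc
-/

open Finset ComplexConjugate

namespace Pool.Agent.Y416.TA

/-- the cosine attached to a complex number of modulus at most one -/
noncomputable def cc (D : ℂ) : ℝ := Real.sqrt (1 - ‖D‖ ^ 2)

lemma cc_sq {D : ℂ} (h : ‖D‖ ≤ 1) : (cc D) ^ 2 = 1 - ‖D‖ ^ 2 := by
  unfold cc
  rw [Real.sq_sqrt]
  have : ‖D‖ ^ 2 ≤ 1 := pow_le_one₀ (norm_nonneg _) h
  linarith

/-- one step -/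
noncomputable def GG (D : ℂ) (v : ℂ × ℂ) : ℂ × ℂ :=
  ((1 + (((‖D‖ ^ 2 : ℝ)) : ℂ)) * v.1 + (cc D : ℂ) * conj D * v.2,
    (cc D : ℂ) * D * v.1 + (cc D : ℂ) ^ 2 * v.2)

/-- the state after `k` steps -/
noncomputable def st (D : ℕ → ℂ) : ℕ → ℂ × ℂ
  | 0 => (1, 0)
  | (k + 1) => GG (D k) (st D k)

lemma GG_smul (D : ℂ) (w : ℂ) (v : ℂ × ℂ) :
    GG D (w * v.1, w * v.2) = (w * (GG D v).1, w * (GG D v).2) := by
  unfold GG
  refine Prod.ext ?_ ?_
  · simp only; ring
  · simp only; ring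

/-- the reachable values -/
def WW : Set ℂ := {w | ∃ (D : ℕ → ℂ) (n : ℕ), (∀ k, ‖D k‖ ≤ 1) ∧ st D n = (w, 0)}

lemma st_congr {D D' : ℕ → ℂ} {n : ℕ} (h : ∀ k < n, D k = D' k) : st D n = st D' n := by
  induction n with
  | zero => rfl
  | succ n ih =>
    rw [st, st, ih (fun k hk => h k (by omega)), h n (by omega)]

/-- concatenation -/
noncomputable def cat (n : ℕ) (D D' : ℕ → ℂ) (k : ℕ) : ℂ := if k < n then D k else D' (k - n)

lemma cat_le {n : ℕ} {D D' : ℕ → ℂ} (h : ∀ k, ‖D k‖ ≤ 1) (h' : ∀ k, ‖D' k‖ ≤ 1) (k : ℕ) :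
    ‖cat n D D' k‖ ≤ 1 := by
  unfold cat
  split_ifs
  · exact h _
  · exact h' _

lemma st_cat {n : ℕ} {D D' : ℕ → ℂ} {w : ℂ} (h : st D n = (w, 0)) (m : ℕ) :
    st (cat n D D') (n + m) = (w * (st D' m).1, w * (st D' m).2) := by
  induction m with
  | zero =>
    have e : st (cat n D D') (n + 0) = st D n := by
      apply st_congr
      intro k hk
      unfold cat
      rw [if_pos (by omega)]
    rw [e, h, st]
    simp
  | succ m ih =>
    have e : n + (m + 1) = (n + m) + 1 := rfl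
    rw [e, st, ih]
    have e2 : cat n D D' (n + m) = D' m := by
      unfold cat
      rw [if_neg (by omega), Nat.add_sub_cancel_left]
    rw [e2, GG_smul, st]

lemma one_mem : (1 : ℂ) ∈ WW := ⟨fun _ => 0, 0, fun _ => by simp, rfl⟩

lemma mul_mem {w w' : ℂ} (h : w ∈ WW) (h' : w' ∈ WW) : w * w' ∈ WW := by
  obtain ⟨D, n, hD, hn⟩ := h
  obtain ⟨D', m, hD', hm⟩ := h'
  refine ⟨cat n D D', n + m, cat_le hD hD', ?_⟩
  rw [st_cat hn, hm]
  simp

lemma pow_mem {w : ℂ} (h : w ∈ WW) (n : ℕ) : w ^ n ∈ WW := by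
  induction n with
  | zero => simpa using one_mem
  | succ n ih => rw [pow_succ]; exact mul_mem ih h

/-- the reset step -/
lemma reset (v : ℂ × ℂ) (hv : v.1 ≠ 0) : ∃ D : ℂ, ‖D‖ ≤ 1 ∧ GG D v = (v.1, 0) := by
  obtain ⟨α, β⟩ := v
  simp only at hv ⊢
  obtain ⟨r, hβ⟩ : ∃ r : ℂ, β = r * α := ⟨β / α, by field_simp⟩
  set ρ : ℝ := Real.sqrt (1 + ‖r‖ ^ 2) with hρ
  have hρ0 : 0 < ρ := Real.sqrt_pos.mpr (by positivity)
  have hρ2 : ρ ^ 2 = 1 + ‖r‖ ^ 2 := Real.sq_sqrt (by positivity)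
  have hD : ‖-(r / (ρ : ℂ))‖ = ‖r‖ / ρ := by
    rw [norm_neg, norm_div, Complex.norm_real, Real.norm_of_nonneg hρ0.le]
  have hD2 : ‖-(r / (ρ : ℂ))‖ ^ 2 = ‖r‖ ^ 2 / ρ ^ 2 := by rw [hD, div_pow]
  have hc : cc (-(r / (ρ : ℂ))) = 1 / ρ := by
    unfold cc
    rw [hD2]
    have : 1 - ‖r‖ ^ 2 / ρ ^ 2 = (1 / ρ) ^ 2 := by
      field_simp
      linarith
    rw [this, Real.sqrt_sq (by positivity)]
  refine ⟨-(r / (ρ : ℂ)), ?_, ?_⟩
  · have : ‖-(r / (ρ : ℂ))‖ ^ 2 ≤ 1 ^ 2 := by
      rw [hD2, div_le_iff₀ (by positivity)]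
      linarith
    exact (pow_le_pow_iff_left₀ (norm_nonneg _) zero_le_one two_ne_zero).mp this
  · unfold GG
    rw [hc, hD2, hβ]
    have hρc : (ρ : ℂ) ≠ 0 := by exact_mod_cast hρ0.ne'
    have hrr : conj r * r = ((‖r‖ ^ 2 : ℝ) : ℂ) := by
      rw [mul_comm, Complex.mul_conj, Complex.normSq_eq_norm_sq]
    refine Prod.ext ?_ ?_
    · simp only [map_neg, map_div₀, Complex.conj_ofReal]
      have h1 : ((1 / ρ : ℝ) : ℂ) * -(conj r / (ρ : ℂ)) * (r * α) =
          -((conj r * r) / (ρ : ℂ) ^ 2 * α) := by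
        push_cast
        field_simp
      rw [h1, hrr]
      push_cast
      ring
    · simp only
      push_cast
      field_simp
      ring

lemma fst_mem {D : ℕ → ℂ} {n : ℕ} (hD : ∀ k, ‖D k‖ ≤ 1) (h0 : (st D n).1 ≠ 0) :
    (st D n).1 ∈ WW := by
  obtain ⟨E, hE, hG⟩ := reset (st D n) h0
  refine ⟨fun k => if k = n then E else D k, n + 1, ?_, ?_⟩
  · intro k
    simp only
    split_ifs
    · exact hE
    · exact hD k
  · rw [st]
    have e : st (fun k => if k = n then E else D k) n = st D n := by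
      apply st_congr
      intro k hk
      rw [if_neg (by omega)]
    rw [e, if_pos rfl, hG]

lemma one_add_mem (t : ℝ) (h0 : 0 ≤ t) (h1 : t ≤ 1) : ((1 + t : ℝ) : ℂ) ∈ WW := by
  set D : ℕ → ℂ := fun _ => ((Real.sqrt t : ℝ) : ℂ) with hD
  have hn : ∀ k, ‖D k‖ = Real.sqrt t := by
    intro k
    rw [hD]
    simp only [Complex.norm_real]
    exact Real.norm_of_nonneg (Real.sqrt_nonneg _)
  have hle : ∀ k, ‖D k‖ ≤ 1 := by
    intro k
    rw [hn k]
    exact Real.sqrt_le_iff.mpr ⟨zero_le_one, by simpa using h1⟩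
  have e : (st D 1).1 = ((1 + t : ℝ) : ℂ) := by
    rw [st, st, GG]
    simp only [mul_one, mul_zero, add_zero]
    rw [hn 0, Real.sq_sqrt h0]
    push_cast
    ring
  rw [← e]
  apply fst_mem hle
  rw [e]
  exact_mod_cast (by linarith : (1 + t : ℝ) ≠ 0)

lemma real_mem (r : ℝ) (hr : 1 ≤ r) : (r : ℂ) ∈ WW := by
  obtain ⟨N, hN⟩ := pow_unbounded_of_one_lt r (by norm_num : (1 : ℝ) < 2)
  have hN0 : N ≠ 0 := by
    rintro rfl
    simp at hN
    linarith
  have hNr : (0 : ℝ) < N := by exact_mod_cast Nat.pos_of_ne_zero hN0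
  set x : ℝ := r ^ (1 / (N : ℝ)) with hx
  have hxN : x ^ N = r := by
    rw [hx, ← Real.rpow_natCast, ← Real.rpow_mul (by linarith)]
    rw [one_div, inv_mul_cancel₀ hNr.ne', Real.rpow_one]
  have hx1 : 1 ≤ x := Real.one_le_rpow hr (by positivity)
  have hx2 : x ≤ 2 := by
    have h : x ^ N ≤ 2 ^ N := by rw [hxN]; exact hN.le
    exact (pow_le_pow_iff_left₀ (by linarith) (by norm_num) hN0).mp h
  have h1 := one_add_mem (x - 1) (by linarith) (by linarith)
  have h2 : ((1 + (x - 1) : ℝ) : ℂ) = (x : ℂ) := by push_cast; ring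
  rw [h2] at h1
  have h3 := pow_mem h1 N
  rw [← hxN]
  push_cast
  exact h3

/-! ### small steps along a polygon -/

/-- first coordinate and normalised second coordinate for the steps `√t e_j` -/
noncomputable def ag (e : ℕ → ℂ) : ℕ → ℝ → ℂ × ℂ
  | 0, _ => (1, 0)
  | (k + 1), t => ((1 + (t : ℂ)) * (ag e k t).1 +
      (t : ℂ) * ((Real.sqrt (1 - t) : ℝ) * conj (e k) * (ag e k t).2),
      (Real.sqrt (1 - t) : ℝ) * e k * (ag e k t).1 +
        ((Real.sqrt (1 - t) : ℝ) : ℂ) ^ 2 * (ag e k t).2)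

lemma st_ag (e : ℕ → ℂ) (he : ∀ k, ‖e k‖ = 1) (t : ℝ) (ht0 : 0 ≤ t) (k : ℕ) :
    st (fun k => (Real.sqrt t : ℂ) * e k) k =
      ((ag e k t).1, (Real.sqrt t : ℂ) * (ag e k t).2) := by
  induction k with
  | zero => simp [st, ag]
  | succ k ih =>
    have hn : ‖(Real.sqrt t : ℂ) * e k‖ = Real.sqrt t := by
      rw [norm_mul, he, mul_one, Complex.norm_real, Real.norm_of_nonneg (Real.sqrt_nonneg _)]
    have hs : (Real.sqrt t) ^ 2 = t := Real.sq_sqrt ht0
    have hsc : ((Real.sqrt t : ℝ) : ℂ) ^ 2 = (t : ℂ) := by exact_mod_cast hs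
    rw [st, ih, GG]
    unfold cc
    rw [hn, hs, ag]
    refine Prod.ext ?_ ?_
    · simp only [map_mul, Complex.conj_ofReal]
      rw [← hsc]
      ring
    · simp only
      ring

lemma ag_mem (e : ℕ → ℂ) (he : ∀ k, ‖e k‖ = 1) (t : ℝ) (ht0 : 0 ≤ t) (ht1 : t ≤ 1) (k : ℕ)
    (h0 : (ag e k t).1 ≠ 0) : (ag e k t).1 ∈ WW := by
  have h := st_ag e he t ht0 k
  have e1 : (st (fun k => (Real.sqrt t : ℂ) * e k) k).1 = (ag e k t).1 := by rw [h]
  rw [← e1]
  apply fst_mem
  · intro j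
    rw [norm_mul, he, mul_one, Complex.norm_real, Real.norm_of_nonneg (Real.sqrt_nonneg _)]
    exact Real.sqrt_le_iff.mpr ⟨zero_le_one, by simpa using ht1⟩
  · rw [e1]; exact h0

lemma ag_cont (e : ℕ → ℂ) (k : ℕ) : Continuous (fun t => (ag e k t).1) ∧
    Continuous (fun t => (ag e k t).2) := by
  induction k with
  | zero => exact ⟨continuous_const, continuous_const⟩
  | succ k ih =>
    obtain ⟨h1, h2⟩ := ih
    have hs : Continuous (fun t : ℝ => ((Real.sqrt (1 - t) : ℝ) : ℂ)) :=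
      Complex.continuous_ofReal.comp (Real.continuous_sqrt.comp (by fun_prop))
    have ht : Continuous (fun t : ℝ => (t : ℂ)) := Complex.continuous_ofReal
    constructor
    · show Continuous (fun t : ℝ => (1 + (t : ℂ)) * (ag e k t).1 +
        (t : ℂ) * ((Real.sqrt (1 - t) : ℝ) * conj (e k) * (ag e k t).2))
      exact ((continuous_const.add ht).mul h1).add (ht.mul ((hs.mul continuous_const).mul h2))
    · show Continuous (fun t : ℝ => (Real.sqrt (1 - t) : ℝ) * e k * (ag e k t).1 +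
        ((Real.sqrt (1 - t) : ℝ) : ℂ) ^ 2 * (ag e k t).2)
      exact ((hs.mul continuous_const).mul h1).add ((hs.pow 2).mul h2)

lemma ag_zero (e : ℕ → ℂ) (k : ℕ) : ag e k 0 = (1, ∑ j ∈ range k, e j) := by
  induction k with
  | zero => simp [ag]
  | succ k ih =>
    rw [ag, ih, Finset.sum_range_succ]
    simp [add_comm]

/-- the second order coefficient -/
noncomputable def aa (e : ℕ → ℂ) (k : ℕ) : ℂ :=
  ∑ j ∈ range k, (1 + (∑ i ∈ range j, e i) * conj (e j))

lemma ag_deriv (e : ℕ → ℂ) (k : ℕ) : HasDerivAt (fun t => (ag e k t).1) (aa e k) 0 := by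
  induction k with
  | zero =>
    have : aa e 0 = 0 := by simp [aa]
    rw [this]
    exact hasDerivAt_const _ _
  | succ k ih =>
    have ht : HasDerivAt (fun t : ℝ => (t : ℂ)) 1 0 := Complex.ofRealCLM.hasDerivAt
    have h1 : HasDerivAt (fun t : ℝ => (1 + (t : ℂ)) * (ag e k t).1) (1 + aa e k) 0 := by
      have := (ht.const_add 1).mul ih
      have e0 : (ag e k 0).1 = 1 := by rw [ag_zero]
      simp only [e0, Complex.ofReal_zero, add_zero, mul_one, one_mul] at this
      exact this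
    have hs : Continuous (fun t : ℝ => ((Real.sqrt (1 - t) : ℝ) : ℂ)) :=
      Complex.continuous_ofReal.comp (Real.continuous_sqrt.comp (by fun_prop))
    have hcont : Continuous (fun t : ℝ => ((Real.sqrt (1 - t) : ℝ) : ℂ) * conj (e k) *
        (ag e k t).2) := (hs.mul continuous_const).mul (ag_cont e k).2
    have h2 : HasDerivAt (fun t : ℝ => (t : ℂ) * (((Real.sqrt (1 - t) : ℝ) : ℂ) * conj (e k) *
        (ag e k t).2)) ((∑ i ∈ range k, e i) * conj (e k)) 0 := by
      rw [hasDerivAt_iff_tendsto_slope]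
      have hlim : Filter.Tendsto (fun t : ℝ => ((Real.sqrt (1 - t) : ℝ) : ℂ) * conj (e k) *
          (ag e k t).2) (nhdsWithin 0 {0}ᶜ) (nhds ((∑ i ∈ range k, e i) * conj (e k))) := by
        have := hcont.tendsto 0
        simp only [sub_zero, Real.sqrt_one, Complex.ofReal_one, one_mul] at this
        rw [ag_zero] at this
        simp only at this
        rw [mul_comm (conj (e k))] at this
        exact this.mono_left nhdsWithin_le_nhds
      refine hlim.congr' ?_
      filter_upwards [self_mem_nhdsWithin] with t ht0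
      have ht0' : t ≠ 0 := ht0
      rw [slope_def_module]
      simp only [Complex.ofReal_zero, zero_mul, sub_zero]
      rw [Complex.real_smul]
      push_cast
      have : (t : ℂ) ≠ 0 := by exact_mod_cast ht0'
      field_simp
    have h3 := h1.add h2
    have e1 : aa e (k + 1) = 1 + aa e k + (∑ i ∈ range k, e i) * conj (e k) := by
      unfold aa
      rw [Finset.sum_range_succ]
      ring
    rw [e1]
    exact h3

lemma block (e : ℕ → ℂ) (u : ℂ) (hu : ‖u‖ = 1) (n m : ℕ) (h : ∀ j, n ≤ j → j < n + m → e j = u) :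
    ∀ j ≤ m, (∑ i ∈ range (n + j), e i) = (∑ i ∈ range n, e i) + j * u ∧
      aa e (n + j) = aa e n + j * (1 + (∑ i ∈ range n, e i) * conj u) + j * ((j : ℂ) - 1) / 2 := by
  have huu : u * conj u = 1 := by
    rw [Complex.mul_conj, Complex.normSq_eq_norm_sq, hu]
    simp
  intro j
  induction j with
  | zero => intro _; simp
  | succ j ih =>
    intro hj
    obtain ⟨h1, h2⟩ := ih (by omega)
    have ej : e (n + j) = u := h _ (by omega) (by omega)
    constructor
    · rw [← add_assoc, Finset.sum_range_succ, h1, ej]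
      push_cast
      ring
    · have e1 : aa e (n + (j + 1)) = aa e (n + j) +
          (1 + (∑ i ∈ range (n + j), e i) * conj (e (n + j))) := by
        unfold aa
        rw [← add_assoc, Finset.sum_range_succ]
      rw [e1, h1, h2, ej]
      push_cast
      linear_combination (j : ℂ) * huu

/-- the steps around a square of side `m` -/
noncomputable def sq (m : ℕ) (j : ℕ) : ℂ :=
  if j < m then 1 else if j < 2 * m then Complex.I else if j < 3 * m then -1 else -Complex.I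

lemma sq_norm (m j : ℕ) : ‖sq m j‖ = 1 := by
  unfold sq
  split_ifs <;> simp

lemma aa_sq (m : ℕ) : aa (sq m) (4 * m) = 2 * m - 2 * (m : ℂ) ^ 2 * Complex.I := by
  have hI : Complex.I * Complex.I = -1 := Complex.I_mul_I
  obtain ⟨g1, a1⟩ := block (sq m) 1 (by simp) 0 m (fun j _ h => by
    unfold sq; rw [if_pos (by omega)]) m le_rfl
  obtain ⟨g2, a2⟩ := block (sq m) Complex.I (by simp) (0 + m) m (fun j h h' => by
    unfold sq; rw [if_neg (by omega), if_pos (by omega)]) m le_rfl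
  obtain ⟨g3, a3⟩ := block (sq m) (-1) (by simp) (0 + m + m) m (fun j h h' => by
    unfold sq; rw [if_neg (by omega), if_neg (by omega), if_pos (by omega)]) m le_rfl
  obtain ⟨g4, a4⟩ := block (sq m) (-Complex.I) (by simp) (0 + m + m + m) m (fun j h h' => by
    unfold sq; rw [if_neg (by omega), if_neg (by omega), if_neg (by omega)]) m le_rfl
  have e4 : 4 * m = 0 + m + m + m + m := by ring
  have z1 : aa (sq m) 0 = 0 := by simp [aa]
  have z2 : ∑ i ∈ range 0, sq m i = 0 := by simp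
  rw [e4, a4, g3, a3, g2, a2, g1, a1, z1, z2]
  simp only [map_one, map_neg, Complex.conj_I]
  linear_combination ((m : ℂ) ^ 2) * hI

end Pool.Agent.Y416.TA
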