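import Pool.Agent.Y416.TA.Path

/-!
# Brooms: a path with leaves attached to its last vertex
-/

open Finset
open Pool.Agent.Results.MP_84cbe7_co.TreeAmplitude (omega)

namespace Pool.Agent.Y416.TA

/-- vertices of the broom -/
abbrev BV (n m : ℕ) : Type := Fin (n + 2) ⊕ Fin m

/-- abstract darts of the broom: the edges with a direction (`false` is outwards) -/
abbrev BD (n m : ℕ) : Type := (Fin (n + 1) ⊕ Fin m) × Bool

/-- the embedding of the darts of the path -/
def emb {n m : ℕ} (p : PD n) : BD n m := (Sum.inl p.1, p.2)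

/-- the source of a dart -/
def bsrc {n m : ℕ} : BD n m → BV n m
  | (Sum.inl k, c) => Sum.inl (psrc (k, c))
  | (Sum.inr _, false) => Sum.inl (Fin.last (n + 1))
  | (Sum.inr j, true) => Sum.inr j

/-- reversal -/
def brev {n m : ℕ} (d : BD n m) : BD n m := (d.1, !d.2)

lemma brev_brev {n m : ℕ} (d : BD n m) : brev (brev d) = d := by
  unfold brev; simp

lemma bsrc_ne {n m : ℕ} (d : BD n m) : bsrc d ≠ bsrc (brev d) := by
  obtain ⟨k | j, c⟩ := d
  · intro h
    have h1 : psrc (k, c) = psrc (k, !c) := Sum.inl_injective h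
    have h2 := congrArg Fin.val h1
    rw [psrc_val, psrc_val] at h2
    cases c <;> simp at h2
  · cases c
    · intro h
      exact Sum.inl_ne_inr h
    · intro h
      exact Sum.inr_ne_inl h

/-- the broom -/
def bG (n m : ℕ) : SimpleGraph (BV n m) where
  Adj u v := ∃ d : BD n m, bsrc d = u ∧ bsrc (brev d) = v
  symm := by
    constructor
    rintro u v ⟨d, h1, h2⟩
    exact ⟨brev d, h2, by rw [brev_brev]; exact h1⟩
  loopless := by
    constructor
    rintro u ⟨d, h1, h2⟩
    exact bsrc_ne d (h1.trans h2.symm)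

/-- the map from abstract darts to darts -/
def btoDart {n m : ℕ} (d : BD n m) : (bG n m).Dart := ⟨(bsrc d, bsrc (brev d)), ⟨d, rfl, rfl⟩⟩

lemma btoDart_bijective {n m : ℕ} : Function.Bijective (btoDart (n := n) (m := m)) := by
  constructor
  · intro d d' h
    have h' := congrArg SimpleGraph.Dart.toProd h
    simp only [btoDart, Prod.mk.injEq] at h'
    obtain ⟨h1, h2⟩ := h'
    obtain ⟨k | j, c⟩ := d <;> obtain ⟨k' | j', c'⟩ := d'
    · have e1 : psrc (k, c) = psrc (k', c') := Sum.inl_injective h1
      have e2 : psrc (k, !c) = psrc (k', !c') := Sum.inl_injective h2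
      have e : (k, c) = (k', c') := by
        apply (ptoDart_bijective (n := n)).1
        exact SimpleGraph.Dart.ext _ _ (Prod.ext e1 e2)
      rw [Prod.mk.injEq] at e
      rw [e.1, e.2]
    · exfalso
      cases c'
      · exact Sum.inl_ne_inr h2
      · exact Sum.inl_ne_inr h1
    · exfalso
      cases c
      · exact Sum.inr_ne_inl h2
      · exact Sum.inr_ne_inl h1
    · cases c <;> cases c'
      · have e : j = j' := Sum.inr_injective h2
        rw [e]
      · exfalso; exact Sum.inl_ne_inr h1
      · exfalso; exact Sum.inr_ne_inl h1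
      · have e : j = j' := Sum.inr_injective h1
        rw [e]
  · rintro ⟨⟨u, v⟩, ⟨d, h1, h2⟩⟩
    exact ⟨d, SimpleGraph.Dart.ext _ _ (Prod.ext h1 h2)⟩

/-- abstract darts are the darts -/
noncomputable def beqv (n m : ℕ) : BD n m ≃ (bG n m).Dart := Equiv.ofBijective _ btoDart_bijective

lemma beqv_fst {n m : ℕ} (d : BD n m) : (beqv n m d).fst = bsrc d := rfl

lemma beqv_snd {n m : ℕ} (d : BD n m) : (beqv n m d).snd = bsrc (brev d) := rfl

lemma beqv_symm {n m : ℕ} (d : BD n m) : (beqv n m d).symm = beqv n m (brev d) := by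
  have h : bsrc (brev (brev d)) = bsrc d := by rw [brev_brev]
  refine SimpleGraph.Dart.ext _ _ (Prod.ext rfl ?_)
  exact h.symm

lemma bG_isTree (n m : ℕ) : (bG n m).IsTree := by
  classical
  rw [SimpleGraph.isTree_iff_connected_and_card]
  have hreach : ∀ k : ℕ, ∀ h : k < n + 2,
      (bG n m).Reachable (Sum.inl ⟨0, by omega⟩) (Sum.inl ⟨k, h⟩) := by
    intro k
    induction k with
    | zero => intro h; exact SimpleGraph.Reachable.refl _
    | succ k ih =>
      intro h
      refine (ih (by omega)).trans (SimpleGraph.Adj.reachable ?_)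
      refine ⟨(Sum.inl ⟨k, by omega⟩, false), ?_, ?_⟩
      · show Sum.inl (psrc _) = _
        congr 1
      · show Sum.inl (psrc _) = _
        congr 1
  have hlast : ∀ j : Fin m, (bG n m).Reachable (Sum.inl ⟨0, by omega⟩) (Sum.inr j) := by
    intro j
    refine (hreach (n + 1) (by omega)).trans (SimpleGraph.Adj.reachable ?_)
    exact ⟨(Sum.inr j, false), rfl, rfl⟩
  refine ⟨SimpleGraph.connected_iff_exists_forall_reachable _ |>.2
    ⟨Sum.inl ⟨0, by omega⟩, ?_⟩, ?_⟩
  · rintro (k | j)
    · exact hreach k.val k.isLt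
    · exact hlast j
  have h1 : Fintype.card (bG n m).Dart = 2 * (n + 1 + m) := by
    rw [← Fintype.card_congr (beqv n m)]
    simp [mul_comm]
  have h2 := (bG n m).dart_card_eq_twice_card_edges
  have h3 : Nat.card (bG n m).edgeSet = #(bG n m).edgeFinset := by
    rw [Nat.card_eq_fintype_card, SimpleGraph.edgeFinset_card]
  rw [h3, Nat.card_eq_fintype_card, Fintype.card_sum, Fintype.card_fin, Fintype.card_fin]
  omega

/-! ### The permutations -/

/-- the dart of the path leaving its last vertex -/
def lastd (n : ℕ) : PD n := (Fin.last n, true)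

lemma psrc_last {n : ℕ} {p : PD n} (h : psrc p = Fin.last (n + 1)) : p = lastd n := by
  obtain ⟨k, c⟩ := p
  have h1 := congrArg Fin.val h
  rw [psrc_val] at h1
  have hk := k.isLt
  cases c
  · simp at h1; omega
  · simp at h1
    exact Prod.ext (Fin.ext h1) rfl

lemma psrc_lastd (n : ℕ) : psrc (lastd n) = Fin.last (n + 1) := by
  apply Fin.ext
  rw [psrc_val]
  simp [lastd]

lemma pphi_lastd {n : ℕ} (b : Fin n → Bool) : pphi b (lastd n) = lastd n := by
  apply pphi_true'
  intro h
  have := bx_lt h
  simp at this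

lemma pphi_ne {n : ℕ} (b : Fin n → Bool) {p : PD n} (h : p ≠ lastd n) : pphi b p ≠ lastd n := by
  intro h1
  apply h
  rw [← pphi_pphi b p, h1, pphi_lastd]

lemma psrc_pphi {n : ℕ} (b : Fin n → Bool) (p : PD n) : psrc (pphi b p) = psrc p := by
  have := pPhi_mem b
  rw [ppres, mem_filter] at this
  exact this.2 p

/-- the darts leaving the last vertex of the path -/
def iot {n m : ℕ} : Option (Fin m) → BD n m
  | none => (Sum.inl (Fin.last n), true)
  | some j => (Sum.inr j, false)

lemma iot_inj {n m : ℕ} {o o' : Option (Fin m)} (h : (iot o : BD n m) = iot o') : o = o' := by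
  cases o with
  | none =>
    cases o' with
    | none => rfl
    | some j => simp [iot] at h
  | some j =>
    cases o' with
    | none => simp [iot] at h
    | some j' =>
      simp only [iot, Prod.mk.injEq, Sum.inr.injEq, and_true] at h
      rw [h]

lemma bsrc_iot {n m : ℕ} (o : Option (Fin m)) :
    bsrc (iot o : BD n m) = Sum.inl (Fin.last (n + 1)) := by
  cases o with
  | none => exact congrArg Sum.inl (psrc_lastd n)
  | some j => rfl

lemma bsrc_emb {n m : ℕ} (p : PD n) : bsrc (emb p : BD n m) = Sum.inl (psrc p) := rfl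

lemma emb_inj {n m : ℕ} {p p' : PD n} (h : (emb p : BD n m) = emb p') : p = p' := by
  simp only [emb, Prod.mk.injEq, Sum.inl.injEq] at h
  exact Prod.ext h.1 h.2

lemma bcases {n m : ℕ} (d : BD n m) : (∃ p, p ≠ lastd n ∧ d = emb p) ∨ (∃ o, d = iot o) ∨
    (∃ j, d = (Sum.inr j, true)) := by
  obtain ⟨k | j, c⟩ := d
  · by_cases h : (k, c) = lastd n
    · right; left
      refine ⟨none, ?_⟩
      have h1 : k = Fin.last n := congrArg Prod.fst h
      have h2 : c = true := congrArg Prod.snd h
      rw [h1, h2]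
      rfl
    · left
      exact ⟨(k, c), h, rfl⟩
  · cases c
    · right; left; exact ⟨some j, rfl⟩
    · right; right; exact ⟨j, rfl⟩

/-- the map on darts attached to bits and a permutation at the last vertex -/
def bth {n m : ℕ} (b : Fin n → Bool) (π : Equiv.Perm (Option (Fin m))) : BD n m → BD n m
  | (Sum.inl k, false) => emb (pphi b (k, false))
  | (Sum.inl k, true) => if k = Fin.last n then iot (π none) else emb (pphi b (k, true))
  | (Sum.inr j, false) => iot (π (some j))
  | (Sum.inr j, true) => (Sum.inr j, true)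

lemma bth_emb {n m : ℕ} (b : Fin n → Bool) (π : Equiv.Perm (Option (Fin m))) {p : PD n}
    (h : p ≠ lastd n) : bth b π (emb p) = emb (pphi b p) := by
  obtain ⟨k, c⟩ := p
  cases c
  · rfl
  · have hk : k ≠ Fin.last n := by
      rintro rfl
      exact h rfl
    show (if k = Fin.last n then iot (π none) else emb (pphi b (k, true))) = _
    rw [if_neg hk]

lemma bth_iot {n m : ℕ} (b : Fin n → Bool) (π : Equiv.Perm (Option (Fin m)))
    (o : Option (Fin m)) : bth b π (iot o : BD n m) = iot (π o) := by
  cases o with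
  | none =>
    show (if Fin.last n = Fin.last n then iot (π none) else emb (pphi b (Fin.last n, true))) = _
    rw [if_pos rfl]
  | some j => rfl

lemma bth_inr {n m : ℕ} (b : Fin n → Bool) (π : Equiv.Perm (Option (Fin m))) (j : Fin m) :
    bth b π ((Sum.inr j, true) : BD n m) = (Sum.inr j, true) := rfl

lemma bth_bth {n m : ℕ} (b : Fin n → Bool) (π π' : Equiv.Perm (Option (Fin m)))
    (h : ∀ o, π' (π o) = o) (d : BD n m) : bth b π' (bth b π d) = d := by
  rcases bcases d with ⟨p, hp, rfl⟩ | ⟨o, rfl⟩ | ⟨j, rfl⟩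
  · rw [bth_emb b π hp, bth_emb b π' (pphi_ne b hp), pphi_pphi]
  · rw [bth_iot, bth_iot, h]
  · rfl

/-- the permutation of the darts -/
def bTh {n m : ℕ} (b : Fin n → Bool) (π : Equiv.Perm (Option (Fin m))) :
    Equiv.Perm (BD n m) where
  toFun := bth b π
  invFun := bth b π⁻¹
  left_inv := bth_bth b π π⁻¹ (by simp)
  right_inv := bth_bth b π⁻¹ π (by simp)

/-- permutations preserving the source -/
def bpres (n m : ℕ) : Finset (Equiv.Perm (BD n m)) := univ.filter fun τ => ∀ d, bsrc (τ d) = bsrc d

lemma bTh_mem {n m : ℕ} (b : Fin n → Bool) (π : Equiv.Perm (Option (Fin m))) :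
    bTh b π ∈ bpres n m := by
  rw [bpres, mem_filter]
  refine ⟨mem_univ _, fun d => ?_⟩
  show bsrc (bth b π d) = bsrc d
  rcases bcases d with ⟨p, hp, rfl⟩ | ⟨o, rfl⟩ | ⟨j, rfl⟩
  · rw [bth_emb b π hp, bsrc_emb, bsrc_emb, psrc_pphi]
  · rw [bth_iot, bsrc_iot, bsrc_iot]
  · rfl

lemma bTh_injective {n m : ℕ} {b b' : Fin n → Bool} {π π' : Equiv.Perm (Option (Fin m))}
    (h : (bTh b π : Equiv.Perm (BD n m)) = bTh b' π') : b = b' ∧ π = π' := by
  have h1 : ∀ d : BD n m, bth b π d = bth b' π' d := fun d =>
    congrArg (fun τ : Equiv.Perm (BD n m) => τ d) h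
  constructor
  · apply pPhi_injective
    ext1 p
    show pphi b p = pphi b' p
    by_cases hp : p = lastd n
    · rw [hp, pphi_lastd, pphi_lastd]
    · have := h1 (emb p)
      rw [bth_emb b π hp, bth_emb b' π' hp] at this
      exact emb_inj this
  · ext1 o
    have := h1 (iot o)
    rw [bth_iot, bth_iot] at this
    exact iot_inj this

lemma bTh_surjective {n m : ℕ} {τ : Equiv.Perm (BD n m)} (hτ : τ ∈ bpres n m) :
    ∃ (b : Fin n → Bool) (π : Equiv.Perm (Option (Fin m))), bTh b π = τ := by
  rw [bpres, mem_filter] at hτ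
  replace hτ := hτ.2
  -- the last vertex
  have h1 : ∀ o : Option (Fin m), ∃ o', τ (iot o) = iot o' := by
    intro o
    have hs := hτ (iot o)
    rw [bsrc_iot] at hs
    rcases bcases (τ (iot o)) with ⟨p, hp, he⟩ | ⟨o', he⟩ | ⟨j, he⟩
    · rw [he, bsrc_emb] at hs
      exact absurd (psrc_last (Sum.inl_injective hs)) hp
    · exact ⟨o', he⟩
    · rw [he] at hs
      exact absurd hs Sum.inr_ne_inl
  choose π0 hπ0 using h1
  have hπinj : Function.Injective π0 := by
    intro o o' h
    have : τ (iot o) = τ (iot o') := by rw [hπ0, hπ0, h]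
    exact iot_inj (τ.injective this)
  set π : Equiv.Perm (Option (Fin m)) :=
    Equiv.ofBijective π0 (Finite.injective_iff_bijective.mp hπinj) with hπ
  have hπv : ∀ o, π o = π0 o := fun o => rfl
  -- the path
  have h2 : ∀ p : PD n, ∃ q, (p = lastd n → q = lastd n) ∧
      (p ≠ lastd n → q ≠ lastd n ∧ τ (emb p) = emb q ∧ psrc q = psrc p) := by
    intro p
    by_cases hp : p = lastd n
    · exact ⟨lastd n, fun _ => rfl, fun h => absurd hp h⟩
    · have hs := hτ (emb p)
      rw [bsrc_emb] at hs
      rcases bcases (τ (emb p)) with ⟨q, hq, he⟩ | ⟨o', he⟩ | ⟨j, he⟩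
      · refine ⟨q, fun h => absurd h hp, fun _ => ⟨hq, he, ?_⟩⟩
        rw [he, bsrc_emb] at hs
        exact Sum.inl_injective hs
      · rw [he, bsrc_iot] at hs
        exact absurd (psrc_last (Sum.inl_injective hs).symm) hp
      · rw [he] at hs
        exact absurd hs Sum.inr_ne_inl
  choose q0 hq1 hq2 using h2
  have hqinj : Function.Injective q0 := by
    intro p p' h
    by_cases hp : p = lastd n
    · by_cases hp' : p' = lastd n
      · rw [hp, hp']
      · exfalso
        apply (hq2 p' hp').1
        rw [← h, hq1 p hp]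
    · by_cases hp' : p' = lastd n
      · exfalso
        apply (hq2 p hp).1
        rw [h, hq1 p' hp']
      · have e : τ (emb p) = τ (emb p') := by
          rw [(hq2 p hp).2.1, (hq2 p' hp').2.1, h]
        exact emb_inj (τ.injective e)
  set ρ : Equiv.Perm (PD n) :=
    Equiv.ofBijective q0 (Finite.injective_iff_bijective.mp hqinj) with hρ
  have hρmem : ρ ∈ ppres n := by
    rw [ppres, mem_filter]
    refine ⟨mem_univ _, fun p => ?_⟩
    show psrc (q0 p) = psrc p
    by_cases hp : p = lastd n
    · rw [hq1 p hp, hp]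
    · exact (hq2 p hp).2.2
  obtain ⟨b, hb⟩ := pPhi_surjective hρmem
  have hbv : ∀ p, pphi b p = q0 p := fun p => congrArg (fun τ : Equiv.Perm (PD n) => τ p) hb
  refine ⟨b, π, ?_⟩
  ext1 d
  show bth b π d = τ d
  rcases bcases d with ⟨p, hp, rfl⟩ | ⟨o, rfl⟩ | ⟨j, rfl⟩
  · rw [bth_emb b π hp, hbv, (hq2 p hp).2.1]
  · rw [bth_iot, hπ0, hπv]
  · rw [bth_inr]
    have hs := hτ (Sum.inr j, true)
    rcases bcases (τ (Sum.inr j, true)) with ⟨q, hq, he⟩ | ⟨o', he⟩ | ⟨j', he⟩
    · rw [he, bsrc_emb] at hs
      exact absurd hs Sum.inl_ne_inr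
    · rw [he, bsrc_iot] at hs
      exact absurd hs Sum.inl_ne_inr
    · rw [he] at hs ⊢
      have : j' = j := Sum.inr_injective hs
      rw [this]

lemma sum_bTh {n m : ℕ} (F : Equiv.Perm (BD n m) → ℂ) :
    ∑ τ ∈ bpres n m, F τ =
      ∑ π : Equiv.Perm (Option (Fin m)), ∑ b : Fin n → Bool, F (bTh b π) := by
  rw [← Fintype.sum_prod_type']
  symm
  refine Finset.sum_bij (fun x _ => bTh x.2 x.1) ?_ ?_ ?_ ?_
  · intro x _
    exact bTh_mem _ _
  · intro x _ x' _ h
    obtain ⟨h1, h2⟩ := bTh_injective h
    exact Prod.ext h2 h1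
  · intro τ hτ
    obtain ⟨b, π, h⟩ := bTh_surjective hτ
    exact ⟨(π, b), mem_univ _, h⟩
  · intro x _
    rfl

/-! ### The sum -/

/-- the product over the outward darts -/
noncomputable def QB {n m : ℕ} (a : BD n m → Fin 2 → ℂ) (τ : Equiv.Perm (BD n m)) : ℂ :=
  ∏ e : Fin (n + 1) ⊕ Fin m, omega (a (τ (e, false))) (a (τ (e, true)))

lemma QB_smul {n m : ℕ} (a : BD n m → Fin 2 → ℂ) (p : BD n m → ℂ) (τ : Equiv.Perm (BD n m)) :
    QB (fun d => p d • a d) τ = (∏ d, p d) * QB a τ := by
  have h1 : ∏ d, p d = ∏ d, p (τ d) := (Equiv.prod_comp τ p).symm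
  unfold QB
  rw [h1, Fintype.prod_prod_type, ← Finset.prod_mul_distrib]
  refine Finset.prod_congr rfl fun e _ => ?_
  rw [Fintype.prod_bool, omega_smul_left, omega_smul_right]
  ring

lemma LL_congr {A A' : ℕ → Bool → Fin 2 → ℂ} {n : ℕ} (h1 : ∀ k ≤ n, A k false = A' k false)
    (h2 : ∀ k < n, A k true = A' k true) : LL A n = LL A' n := by
  have h : ∀ k ≤ n, LL A k = LL A' k := by
    intro k
    induction k with
    | zero => intro h; exact h1 0 h
    | succ k ih =>
      intro hk
      rw [LL, LL, ih (by omega), h1 (k + 1) hk, h2 k (by omega)]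
  exact h n le_rfl

/-- the sum over the bits -/
lemma sum_QB {n m : ℕ} (a : BD n m → Fin 2 → ℂ) (π : Equiv.Perm (Option (Fin m))) :
    ∑ b : Fin n → Bool, QB a (bTh b π) =
      omega (LL (extA (fun p : PD n => a (emb p))) n) (a (iot (π none))) *
        ∏ j : Fin m, omega (a (iot (π (some j)))) (a (Sum.inr j, true)) := by
  classical
  set a' : PD n → Fin 2 → ℂ := fun p => if p = lastd n then a (iot (π none)) else a (emb p)
    with ha'
  have hval : ∀ (b : Fin n → Bool) (p : PD n), a (bTh b π (emb p)) = a' (pPhi b p) := by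
    intro b p
    show a (bth b π (emb p)) = a' (pphi b p)
    by_cases hp : p = lastd n
    · have e : (emb p : BD n m) = iot none := by rw [hp]; rfl
      rw [e, bth_iot, hp, pphi_lastd, ha']
      simp only [if_true]
    · rw [bth_emb b π hp, ha']
      simp only
      rw [if_neg (pphi_ne b hp)]
  have hQ : ∀ b : Fin n → Bool, QB a (bTh b π) = QP a' (pPhi b) *
      ∏ j : Fin m, omega (a (iot (π (some j)))) (a (Sum.inr j, true)) := by
    intro b
    unfold QB QP
    rw [Fintype.prod_sum_type]
    congr 1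
    refine Finset.prod_congr rfl fun k _ => ?_
    rw [← hval, ← hval]
    rfl
  simp only [hQ]
  rw [← Finset.sum_mul]
  congr 1
  simp only [QP_pPhi]
  rw [sum_bits]
  congr 1
  · apply LL_congr
    · intro k hk
      unfold extA
      rw [dif_pos (by omega), dif_pos (by omega), ha']
      simp only
      rw [if_neg]
      intro h
      have := congrArg Prod.snd h
      simp [lastd] at this
    · intro k hk
      unfold extA
      rw [dif_pos (by omega), dif_pos (by omega), ha']
      simp only
      rw [if_neg]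
      intro h
      have := congrArg (fun p : PD n => p.1.val) h
      simp [lastd] at this
      omega
  · unfold extA
    rw [dif_pos (by omega), ha']
    simp only
    rw [if_pos]
    rfl

/-- the sum over the permutations at the last vertex -/
lemma sum_perm (m : ℕ) (P Q : ℂ) :
    ∑ π : Equiv.Perm (Option (Fin m)), (if π none = none then P else Q) =
      (m.factorial : ℂ) * (P + m * Q) := by
  rw [← Equiv.sum_comp (Equiv.Perm.decomposeOption).symm, Fintype.sum_prod_type]
  have h : ∀ (o : Option (Fin m)) (σ : Equiv.Perm (Fin m)),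
      (Equiv.Perm.decomposeOption.symm (o, σ)) none = o := by
    intro o σ
    simp
  simp only [h]
  rw [Fintype.sum_option]
  simp only [if_true, Finset.sum_const, Finset.card_univ, Fintype.card_perm, Fintype.card_fin,
    reduceCtorEq, if_false, nsmul_eq_mul]
  ring

lemma prod_h {m : ℕ} (h : Option (Fin m) → ℂ) (hs : ∀ j, h (some j) = 1)
    (π : Equiv.Perm (Option (Fin m))) :
    ∏ j : Fin m, h (π (some j)) = if π none = none then 1 else h none := by
  by_cases hn : π none = none
  · rw [if_pos hn]
    apply Finset.prod_eq_one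
    intro j _
    cases hj : π (some j) with
    | none =>
      have : π (some j) = π none := by rw [hj, hn]
      exact absurd (π.injective this) (by simp)
    | some i => exact hs i
  · rw [if_neg hn]
    have h1 : ∏ o : Option (Fin m), h (π o) = ∏ o : Option (Fin m), h o := Equiv.prod_comp π h
    rw [Fintype.prod_option, Fintype.prod_option] at h1
    simp only [hs, Finset.prod_const_one, mul_one] at h1
    cases hj : π none with
    | none => exact absurd hj hn
    | some i =>
      rw [hj, hs, one_mul] at h1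
      exact h1

/-- **The sum for the broom.** -/
lemma total_QB {n m : ℕ} (a : BD n m → Fin 2 → ℂ) (y f g : Fin 2 → ℂ)
    (hy : a (iot none) = y) (hf : ∀ j, a (Sum.inr j, false) = f)
    (hg : ∀ j, a (Sum.inr j, true) = g) (hfg : omega f g = 1) :
    ∑ τ ∈ bpres n m, QB a τ = (m.factorial : ℂ) *
      (omega (LL (extA (fun p : PD n => a (emb p))) n) y +
        m * (omega (LL (extA (fun p : PD n => a (emb p))) n) f * omega y g)) := by
  set L : Fin 2 → ℂ := LL (extA (fun p : PD n => a (emb p))) n with hL
  rw [sum_bTh]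
  have hterm : ∀ π : Equiv.Perm (Option (Fin m)), ∑ b : Fin n → Bool, QB a (bTh b π) =
      if π none = none then omega L y else omega L f * omega y g := by
    intro π
    rw [sum_QB, ← hL]
    have h2 : ∏ j : Fin m, omega (a (iot (π (some j)))) (a (Sum.inr j, true)) =
        if π none = none then 1 else omega y g := by
      have h3 := prod_h (fun o => omega (a (iot o : BD n m)) g) (fun j => by
        show omega (a (Sum.inr j, false)) g = 1
        rw [hf, hfg]) π
      simp only [hy] at h3
      rw [← h3]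
      refine Finset.prod_congr rfl fun j _ => ?_
      rw [hg]
    rw [h2]
    cases hn : π none with
    | none => rw [if_pos rfl, if_pos rfl, hy, mul_one]
    | some i =>
      rw [if_neg (by simp), if_neg (by simp)]
      have : a (iot (some i) : BD n m) = f := hf i
      rw [this]
  simp only [hterm]
  rw [sum_perm]

end Pool.Agent.Y416.TA
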