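import Pool.Agent.Y416.TA.Spin

/-!
# The exact set of values of the amplitude function of paths
-/

open Finset ComplexConjugate
open Pool.Agent.Results.MP_84cbe7_co.TreeAmplitude (E3 omega IsSpinorChoice IsHalf firstPreserving
  amplitude Admissible IsUnitSpinor unitDir dotSigma pauli1 pauli2 pauli3)

namespace Pool.Agent.Y416.TA

lemma unitDir_neg {V : Type} (x : V → E3) (i j : V) : unitDir x j i = -unitDir x i j := by
  unfold unitDir
  rw [norm_sub_rev, ← smul_neg, neg_sub]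

lemma seqOf_val {n : ℕ} (ψ : (pathG n).Dart → Fin 2 → ℂ) (k : ℕ) (hk : k < n + 1) (c : Bool) :
    seqOf ψ k c = ψ (peqv n (⟨k, hk⟩, c)) := by
  unfold seqOf extA
  rw [dif_pos hk]

lemma choice_up {n : ℕ} {x : Fin (n + 2) → E3} {ψ : (pathG n).Dart → Fin 2 → ℂ}
    (h : IsSpinorChoice (pathG n) x ψ) (k : ℕ) (hk : k < n + 1) :
    IsUnitSpinor (unitDir x ⟨k, by omega⟩ ⟨k + 1, by omega⟩) (seqOf ψ k false) := by
  have h1 := h (peqv n (⟨k, hk⟩, false))
  rw [seqOf_val ψ k hk]
  exact h1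

lemma choice_dn {n : ℕ} {x : Fin (n + 2) → E3} {ψ : (pathG n).Dart → Fin 2 → ℂ}
    (h : IsSpinorChoice (pathG n) x ψ) (k : ℕ) (hk : k < n + 1) :
    IsUnitSpinor (unitDir x ⟨k + 1, by omega⟩ ⟨k, by omega⟩) (seqOf ψ k true) := by
  have h1 := h (peqv n (⟨k, hk⟩, true))
  rw [seqOf_val ψ k hk]
  exact h1

/-- The value of the amplitude function of a path is `1` or has modulus larger than one. -/
theorem dichotomy (n : ℕ) (x : Fin (n + 2) → E3) (ψ : (pathG n).Dart → Fin 2 → ℂ)
    (Δ : Finset (pathG n).Dart) (hψ : IsSpinorChoice (pathG n) x ψ) (hΔ : IsHalf (pathG n) Δ) :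
    amplitude (pathG n) ψ Δ = 1 ∨ 1 < ‖amplitude (pathG n) ψ Δ‖ := by
  have hU : ∀ k ≤ n, IsU (seqOf ψ k false) := fun k hk =>
    (isU_iff _).mpr (choice_up hψ k (by omega)).1
  have hl : ∀ k : ℕ, ∃ l : ℂ, k ≤ n → l ≠ 0 ∧ seqOf ψ k true = l • JJ (seqOf ψ k false) := by
    intro k
    by_cases hk : k ≤ n
    · obtain ⟨l, h1, h2⟩ := anti_spinor (unitDir_neg x _ _) (choice_up hψ k (by omega))
        (choice_dn hψ k (by omega))
      exact ⟨l, fun _ => ⟨h1, h2⟩⟩
    · exact ⟨1, fun h => absurd h hk⟩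
  choose lam hlam using hl
  rw [amplitude_path ψ Δ hΔ, quot_ab (seqOf ψ) lam n hU (fun k hk => (hlam k hk).2)
    (fun k hk => (hlam k hk).1)]
  exact ab_dichotomy _ n hU

/-! ### Scaling -/

lemma LL_smul (A A' : ℕ → Bool → Fin 2 → ℂ) (p : ℕ → Bool → ℂ) (n : ℕ)
    (h : ∀ k ≤ n, ∀ c, A k c = p k c • A' k c) : ∀ k ≤ n,
    LL A k = ((∏ j ∈ range (k + 1), p j false) * ∏ j ∈ range k, p j true) • LL A' k := by
  intro k
  induction k with
  | zero =>
    intro _
    simp [LL, h 0 (by omega) false]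
  | succ k ih =>
    intro hk
    rw [LL, LL, ih (by omega), h k (by omega) true, h (k + 1) hk false,
      Finset.prod_range_succ (fun j => p j false) (k + 1),
      Finset.prod_range_succ (fun j => p j true) k]
    simp only [omega_smul_left, omega_smul_right]
    ext i
    simp only [Pi.add_apply, Pi.smul_apply, smul_eq_mul]
    ring

lemma quot_smul (A A' : ℕ → Bool → Fin 2 → ℂ) (p : ℕ → Bool → ℂ) (n : ℕ)
    (h : ∀ k ≤ n, ∀ c, A k c = p k c • A' k c) (hp : ∀ k ≤ n, ∀ c, p k c ≠ 0) :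
    omega (LL A n) (A n true) / ∏ k ∈ range (n + 1), omega (A k false) (A k true) =
      omega (LL A' n) (A' n true) / ∏ k ∈ range (n + 1), omega (A' k false) (A' k true) := by
  have h1 : ∏ k ∈ range (n + 1), omega (A k false) (A k true) =
      ((∏ j ∈ range (n + 1), p j false) * ∏ j ∈ range (n + 1), p j true) *
        ∏ k ∈ range (n + 1), omega (A' k false) (A' k true) := by
    rw [← Finset.prod_mul_distrib, ← Finset.prod_mul_distrib]
    apply Finset.prod_congr rfl
    intro k hk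
    rw [Finset.mem_range] at hk
    rw [h k (by omega) true, h k (by omega) false, omega_smul_left, omega_smul_right]
    ring
  have h2 : omega (LL A n) (A n true) =
      ((∏ j ∈ range (n + 1), p j false) * ∏ j ∈ range (n + 1), p j true) *
        omega (LL A' n) (A' n true) := by
    rw [LL_smul A A' p n h n le_rfl, h n le_rfl true, omega_smul_left, omega_smul_right,
      Finset.prod_range_succ (fun j => p j true) n]
    ring
  rw [h1, h2]
  apply mul_div_mul_left
  apply mul_ne_zero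
  · rw [Finset.prod_ne_zero_iff]
    intro k hk
    rw [Finset.mem_range] at hk
    exact hp k (by omega) false
  · rw [Finset.prod_ne_zero_iff]
    intro k hk
    rw [Finset.mem_range] at hk
    exact hp k (by omega) true

/-! ### Realisation -/

section realise
variable (D : ℕ → ℂ)

/-- the spinors with prescribed steps -/
noncomputable def EE : ℕ → Fin 2 → ℂ
  | 0 => ![1, 0]
  | (k + 1) => (cc (D k) : ℂ) • EE k + ((-1) ^ k * D k) • JJ (EE k)

lemma isU_comb {a : Fin 2 → ℂ} (ha : IsU a) (c : ℝ) (d : ℂ) (h : c ^ 2 + ‖d‖ ^ 2 = 1) :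
    IsU ((c : ℂ) • a + d • JJ a) := by
  have hd : (c : ℂ) ^ 2 + d * conj d = 1 := by
    rw [Complex.mul_conj, Complex.normSq_eq_norm_sq]
    exact_mod_cast h
  unfold IsU at ha ⊢
  simp only [Pi.add_apply, Pi.smul_apply, smul_eq_mul, JJ_zero, JJ_one, map_add, map_mul, map_neg,
    Complex.conj_conj, Complex.conj_ofReal]
  linear_combination ((c : ℂ) ^ 2 + d * conj d) * ha + hd

lemma eps_norm (k : ℕ) (d : ℂ) : ‖(-1) ^ k * d‖ = ‖d‖ := by
  rw [norm_mul, norm_pow, norm_neg, norm_one, one_pow, one_mul]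

lemma EE_isU (hD : ∀ k, ‖D k‖ ≤ 1) (k : ℕ) : IsU (EE D k) := by
  induction k with
  | zero => simp [EE, IsU]
  | succ k ih =>
    rw [EE]
    apply isU_comb ih
    rw [eps_norm, cc_sq (hD k)]
    ring

lemma EE_d (hD : ∀ k, ‖D k‖ ≤ 1) (k : ℕ) :
    omega (EE D k) (EE D (k + 1)) = (-1) ^ k * D k := by
  rw [EE, omega_add_right, omega_smul_right, omega_smul_right, omega_self,
    omega_JJ (EE_isU D hD k)]
  ring

lemma EE_c (hD : ∀ k, ‖D k‖ ≤ 1) (k : ℕ) :
    omega (EE D (k + 1)) (JJ (EE D k)) = (cc (D k) : ℂ) := by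
  rw [EE, omega_add_left, omega_smul_left, omega_smul_left, omega_self,
    omega_JJ (EE_isU D hD k)]
  ring

lemma ab_EE (hD : ∀ k, ‖D k‖ ≤ 1) (k : ℕ) :
    ab (EE D) k = ((st D k).1, (-1) ^ (k + 1) * (st D k).2) := by
  induction k with
  | zero => simp [ab, st]
  | succ k ih =>
    have hs : ((-1 : ℂ) ^ k) * (-1) ^ k = 1 := by
      rw [← mul_pow]; simp
    have hDD : ((‖D k‖ ^ 2 : ℝ) : ℂ) = D k * conj (D k) := by
      rw [Complex.mul_conj, Complex.normSq_eq_norm_sq]
    rw [ab, XX, EE_d D hD, EE_c D hD, ih, st, GG]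
    refine Prod.ext ?_ ?_
    · simp only [map_mul, map_pow, map_neg, map_one]
      rw [hDD, pow_succ]
      linear_combination ((st D k).1 * D k * conj (D k) +
        (st D k).2 * (cc (D k) : ℂ) * conj (D k)) * hs
    · simp only
      rw [pow_succ, pow_succ]
      ring

/-- the configuration -/
noncomputable def xx (n : ℕ) (v : Fin (n + 2)) : E3 := ∑ j ∈ range v.val, bloch (EE D j)

lemma xx_dir (hD : ∀ k, ‖D k‖ ≤ 1) (n k : ℕ) (hk : k < n + 1) :
    unitDir (xx D n) ⟨k, by omega⟩ ⟨k + 1, by omega⟩ = bloch (EE D k) := by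
  have h : xx D n ⟨k + 1, by omega⟩ - xx D n ⟨k, by omega⟩ = bloch (EE D k) := by
    unfold xx
    simp only
    rw [Finset.sum_range_succ]
    simp
  unfold unitDir
  rw [h, bloch_norm (EE_isU D hD k)]
  simp

lemma xx_admissible (hD : ∀ k, ‖D k‖ ≤ 1) (n : ℕ) : Admissible (pathG n) (xx D n) := by
  have key : ∀ (k : ℕ) (hk : k < n + 1), xx D n ⟨k, by omega⟩ ≠ xx D n ⟨k + 1, by omega⟩ := by
    intro k hk h
    have h1 := xx_dir D hD n k hk
    unfold unitDir at h1
    rw [h, sub_self, smul_zero] at h1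
    have h2 := bloch_norm (EE_isU D hD k)
    rw [← h1, norm_zero] at h2
    exact zero_ne_one h2
  intro i j hij
  rcases hij with h | h
  · have e : j = ⟨i.val + 1, by omega⟩ := Fin.ext h.symm
    have := key i.val (by omega)
    rw [e]
    exact this
  · have e : i = ⟨j.val + 1, by omega⟩ := Fin.ext h.symm
    have := key j.val (by omega)
    rw [e]
    exact this.symm

/-- a spinor choice exists -/
lemma xx_choice (hD : ∀ k, ‖D k‖ ≤ 1) (n : ℕ) :
    ∃ ψ : (pathG n).Dart → Fin 2 → ℂ, IsSpinorChoice (pathG n) (xx D n) ψ := by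
  have h : ∀ d : (pathG n).Dart, ∃ ψ : Fin 2 → ℂ,
      IsUnitSpinor (unitDir (xx D n) d.fst d.snd) ψ := by
    intro d
    obtain ⟨⟨k, c⟩, rfl⟩ := (peqv n).surjective d
    cases c
    · refine ⟨EE D k.val, ?_⟩
      have := bloch_spinor (EE_isU D hD k.val)
      rw [← xx_dir D hD n k.val k.isLt] at this
      exact this
    · refine ⟨JJ (EE D k.val), ?_⟩
      have := bloch_spinor_neg (EE_isU D hD k.val)
      rw [← xx_dir D hD n k.val k.isLt, ← unitDir_neg] at this
      exact this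
  exact ⟨fun d => (h d).choose, fun d => (h d).choose_spec⟩

/-- the upward darts form a half -/
lemma phalf_exists (n : ℕ) : ∃ Δ : Finset (pathG n).Dart, IsHalf (pathG n) Δ := by
  refine ⟨univ.filter fun d => ((peqv n).symm d).2 = false, fun d => ?_⟩
  obtain ⟨⟨k, c⟩, rfl⟩ := (peqv n).surjective d
  rw [peqv_symm]
  cases c <;> simp [prev]

/-- the amplitude of the configuration -/
lemma xx_amplitude (hD : ∀ k, ‖D k‖ ≤ 1) (n : ℕ) (ψ : (pathG n).Dart → Fin 2 → ℂ)
    (Δ : Finset (pathG n).Dart) (hψ : IsSpinorChoice (pathG n) (xx D n) ψ)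
    (hΔ : IsHalf (pathG n) Δ) : amplitude (pathG n) ψ Δ = (st D n).1 := by
  set A' : ℕ → Bool → Fin 2 → ℂ := fun k c => if c then JJ (EE D k) else EE D k with hA'
  have hp : ∀ (k : ℕ) (c : Bool), ∃ p : ℂ, k ≤ n → p ≠ 0 ∧ seqOf ψ k c = p • A' k c := by
    intro k c
    by_cases hk : k ≤ n
    · have hup := choice_up hψ k (by omega)
      have hdn := choice_dn hψ k (by omega)
      rw [unitDir_neg, xx_dir D hD n k (by omega)] at hdn
      rw [xx_dir D hD n k (by omega)] at hup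
      cases c
      · obtain ⟨p, h1, h2⟩ := bloch_unique (EE_isU D hD k) hup
        exact ⟨p, fun _ => ⟨h1, h2⟩⟩
      · obtain ⟨p, h1, h2⟩ := anti_spinor rfl (bloch_spinor (EE_isU D hD k)) hdn
        exact ⟨p, fun _ => ⟨h1, h2⟩⟩
    · exact ⟨1, fun h => absurd h hk⟩
  choose p hp' using hp
  rw [amplitude_path ψ Δ hΔ, quot_smul (seqOf ψ) A' p n (fun k hk c => (hp' k c hk).2)
    (fun k hk c => (hp' k c hk).1)]
  rw [quot_ab A' (fun _ => 1) n (fun k _ => EE_isU D hD k) (fun k _ => (one_smul _ _).symm)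
    (fun _ _ => one_ne_zero)]
  have e : (fun j => A' j false) = EE D := rfl
  rw [e, ab_EE D hD]

end realise

end Pool.Agent.Y416.TA
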