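import Pool.Agent.Y416.TA.Broom
import Pool.Agent.Y416.TA.Real
import Pool.Agent.Results.MP_b525e0_co.DoubleStarZero

/-!
# The amplitude of brooms
-/

open Finset ComplexConjugate
open Pool.Agent.Results.MP_84cbe7_co.TreeAmplitude (omega IsUnitSpinor)
open Pool.Agent.Results.MP_b525e0_co.DoubleStarZero (R3 IsConfiguration direction IsSpinorOf
  IsSpinorChoice IsOrientation fibrePerms numerator denominator amplitude)

namespace Pool.Agent.Y416.TA

lemma omega_eq (a b : Fin 2 → ℂ) :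
    Pool.Agent.Results.MP_b525e0_co.DoubleStarZero.omega a b = omega a b := rfl

lemma spinor_iff (u : R3) (ψ : Fin 2 → ℂ) : IsSpinorOf u ψ ↔ IsUnitSpinor u ψ := Iff.rfl

lemma mem_fib {V : Type} [Fintype V] {G : SimpleGraph V} {σ : Equiv.Perm G.Dart} :
    σ ∈ fibrePerms G ↔ ∀ d : G.Dart, (σ d).fst = d.fst := by
  unfold fibrePerms
  simp

lemma sum_bpres {n m : ℕ} (F : Equiv.Perm (bG n m).Dart → ℂ) :
    ∑ σ ∈ fibrePerms (bG n m), F σ =
      ∑ τ ∈ bpres n m, F ((beqv n m).permCongr τ) := by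
  symm
  refine Finset.sum_bij (fun τ _ => (beqv n m).permCongr τ) ?_ ?_ ?_ ?_
  · intro τ hτ
    rw [bpres, mem_filter] at hτ
    rw [mem_fib]
    intro d
    obtain ⟨e, rfl⟩ := (beqv n m).surjective d
    simp only [Equiv.permCongr_apply, Equiv.symm_apply_apply]
    rw [beqv_fst, beqv_fst]
    exact hτ.2 e
  · intro τ _ τ' _ h
    exact (beqv n m).permCongr.injective h
  · intro σ hσ
    rw [mem_fib] at hσ
    refine ⟨(beqv n m).permCongr.symm σ, ?_, ?_⟩
    · rw [bpres, mem_filter]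
      refine ⟨mem_univ _, fun d => ?_⟩
      have := hσ (beqv n m d)
      rw [beqv_fst] at this
      rw [← this, ← beqv_fst]
      simp
    · exact (beqv n m).permCongr.apply_symm_apply σ
  · intro τ _
    rfl

open Classical in
/-- product over an orientation of an antisymmetric function -/
lemma bprod_half {n m : ℕ} (Δ : Finset (bG n m).Dart) (hΔ : IsOrientation (bG n m) Δ)
    (f : (bG n m).Dart → ℂ) (hf : ∀ d, f d.symm = - f d) :
    ∏ d ∈ Δ, f d =
      (∏ e : Fin (n + 1) ⊕ Fin m, (if beqv n m (e, false) ∈ Δ then (1 : ℂ) else -1)) *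
      ∏ e : Fin (n + 1) ⊕ Fin m, f (beqv n m (e, false)) := by
  have h1 : ∏ d ∈ Δ, f d = ∏ d : (bG n m).Dart, if d ∈ Δ then f d else 1 := by
    rw [Finset.prod_ite_mem, Finset.univ_inter]
  rw [h1, ← Equiv.prod_comp (beqv n m), Fintype.prod_prod_type, ← Finset.prod_mul_distrib]
  refine Finset.prod_congr rfl fun e _ => ?_
  rw [Fintype.prod_bool]
  have e1 : (beqv n m (e, false)).symm = beqv n m (e, true) := beqv_symm _
  rcases hΔ (beqv n m (e, false)) with ⟨ha, hb⟩ | ⟨ha, hb⟩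
  · rw [e1] at hb
    rw [if_neg hb, if_pos ha, if_pos ha]
  · rw [e1] at hb
    rw [if_pos hb, if_neg ha, if_neg ha, ← e1, hf]
    ring

/-- **The amplitude of the broom as a sum over abstract permutations.** -/
theorem amplitude_bG {n m : ℕ} (ψ : (bG n m).Dart → Fin 2 → ℂ)
    (Δ : Finset (bG n m).Dart) (hΔ : IsOrientation (bG n m) Δ) :
    amplitude (bG n m) ψ Δ = (∑ τ ∈ bpres n m, QB (fun d => ψ (beqv n m d)) τ) /
      QB (fun d => ψ (beqv n m d)) 1 := by
  classical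
  set a : BD n m → Fin 2 → ℂ := fun d => ψ (beqv n m d) with ha
  set ε : ℂ := ∏ e : Fin (n + 1) ⊕ Fin m,
    (if beqv n m (e, false) ∈ Δ then (1 : ℂ) else -1) with hε
  have hε0 : ε ≠ 0 := by
    rw [hε, Finset.prod_ne_zero_iff]
    intro k _
    split_ifs <;> simp
  have hterm : ∀ τ : Equiv.Perm (BD n m),
      ∏ d ∈ Δ, omega (ψ ((beqv n m).permCongr τ d)) (ψ ((beqv n m).permCongr τ d.symm)) =
        ε * QB a τ := by
    intro τ
    rw [bprod_half Δ hΔ (fun d => omega (ψ ((beqv n m).permCongr τ d))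
      (ψ ((beqv n m).permCongr τ d.symm)))]
    · rw [hε]
      congr 1
      · unfold QB
        refine Finset.prod_congr rfl fun k _ => ?_
        have e : ∀ c, (beqv n m).permCongr τ (beqv n m (k, c)) = beqv n m (τ (k, c)) := by
          intro c
          simp [Equiv.permCongr_apply]
        have e1 : (beqv n m (k, false)).symm = beqv n m (k, true) := beqv_symm _
        rw [e1, e, e]
    · intro d
      simp only [SimpleGraph.Dart.symm_symm, omega]
      ring
  have hden : ∏ d ∈ Δ, omega (ψ d) (ψ d.symm) = ε * QB a 1 := by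
    rw [← hterm 1]
    refine Finset.prod_congr rfl fun d _ => ?_
    simp [Equiv.permCongr_apply]
  have hnum : numerator (bG n m) ψ Δ = ε * ∑ τ ∈ bpres n m, QB a τ := by
    unfold numerator
    rw [sum_bpres, Finset.mul_sum]
    refine Finset.sum_congr rfl fun τ _ => ?_
    exact hterm τ
  have hden' : denominator (bG n m) ψ Δ = ε * QB a 1 := hden
  unfold amplitude
  rw [hnum, hden', mul_div_mul_left _ _ hε0]

section realise
variable (D : ℕ → ℂ)

/-- the spinor attached to an edge -/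
noncomputable def SS (n m : ℕ) : Fin (n + 1) ⊕ Fin m → Fin 2 → ℂ
  | Sum.inl k => EE D k.val
  | Sum.inr _ => EE D (n + 1)

/-- the spinors attached to the darts -/
noncomputable def a0 (n m : ℕ) (d : BD n m) : Fin 2 → ℂ :=
  if d.2 = true then JJ (SS D n m d.1) else SS D n m d.1

lemma SS_isU (hD : ∀ k, ‖D k‖ ≤ 1) (n m : ℕ) (e : Fin (n + 1) ⊕ Fin m) : IsU (SS D n m e) := by
  rcases e with k | j
  · exact EE_isU D hD _
  · exact EE_isU D hD _

lemma QB_a0_one (hD : ∀ k, ‖D k‖ ≤ 1) (n m : ℕ) : QB (a0 D n m) 1 = 1 := by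
  unfold QB
  apply Finset.prod_eq_one
  intro e _
  exact omega_JJ (SS_isU D hD n m e)

lemma omega_JJ_JJ (a b : Fin 2 → ℂ) : omega (JJ a) (JJ b) = conj (omega a b) := by
  simp only [omega, JJ_zero, JJ_one, map_sub, map_mul]
  ring

/-- the value -/
noncomputable def bval (n m : ℕ) : ℂ := (m.factorial : ℂ) * ((st D n).1 +
  m * (((st D n).1 * D n + (st D n).2 * (cc (D n) : ℂ)) * conj (D n)))

lemma total_a0 (hD : ∀ k, ‖D k‖ ≤ 1) (n m : ℕ) :
    ∑ τ ∈ bpres n m, QB (a0 D n m) τ = bval D n m := by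
  rw [total_QB (a0 D n m) (JJ (EE D n)) (EE D (n + 1)) (JJ (EE D (n + 1))) rfl (fun _ => rfl)
    (fun _ => rfl) (omega_JJ (EE_isU D hD (n + 1)))]
  set A' : ℕ → Bool → Fin 2 → ℂ := fun k c => if c then JJ (EE D k) else EE D k with hA'
  have hL : LL (extA (fun p : PD n => a0 D n m (emb p))) n = LL A' n := by
    apply LL_congr
    · intro k hk
      unfold extA
      rw [dif_pos (by omega)]
      rfl
    · intro k hk
      unfold extA
      rw [dif_pos (by omega)]
      rfl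
  have hLA := LL_ab A' (fun _ => 1) n (fun k _ => EE_isU D hD k) (fun k _ => (one_smul _ _).symm)
    n le_rfl
  have e : (fun j => A' j false) = EE D := rfl
  rw [e, ab_EE D hD, Finset.prod_const_one, one_smul] at hLA
  have e2 : A' n false = EE D n := rfl
  rw [e2] at hLA
  rw [hL, hLA]
  simp only [omega_add_left, omega_smul_left]
  rw [omega_JJ (EE_isU D hD n), omega_self, omega_JJ_JJ, EE_d D hD, omega_anti (JJ (EE D n)),
    EE_c D hD]
  unfold bval
  simp only [map_mul, map_pow, map_neg, map_one]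
  have hs : ((-1 : ℂ) ^ n) * (-1) ^ n = 1 := by
    rw [← mul_pow]; simp
  rw [pow_succ]
  linear_combination ((m.factorial : ℂ) * m * ((st D n).1 * D n * conj (D n) +
    (st D n).2 * (cc (D n) : ℂ) * conj (D n))) * hs

/-! ### The configuration -/

/-- the positions of the vertices of the path -/
noncomputable def pos (k : ℕ) : R3 := ∑ j ∈ range k, (3 : ℝ) ^ j • bloch (EE D j)

/-- the configuration of the broom -/
noncomputable def bX (n m : ℕ) : BV n m → R3
  | Sum.inl k => pos D k.val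
  | Sum.inr j => pos D (n + 1) + ((3 : ℝ) ^ (n + 1) * ((j.val : ℝ) + 1)) • bloch (EE D (n + 1))

lemma pos_succ (k : ℕ) : pos D (k + 1) = pos D k + (3 : ℝ) ^ k • bloch (EE D k) := by
  unfold pos
  rw [Finset.sum_range_succ]

lemma pos_norm (hD : ∀ k, ‖D k‖ ≤ 1) (k : ℕ) : ‖pos D k‖ ≤ ((3 : ℝ) ^ k - 1) / 2 := by
  induction k with
  | zero => simp [pos]
  | succ k ih =>
    rw [pos_succ]
    have h1 : ‖(3 : ℝ) ^ k • bloch (EE D k)‖ = 3 ^ k := by
      rw [norm_smul, bloch_norm (EE_isU D hD k), mul_one, Real.norm_of_nonneg (by positivity)]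
    have h2 := norm_add_le (pos D k) ((3 : ℝ) ^ k • bloch (EE D k))
    rw [h1] at h2
    rw [pow_succ]
    linarith

lemma pos_ne (hD : ∀ k, ‖D k‖ ≤ 1) {j k : ℕ} (h : j < k) : pos D j ≠ pos D k := by
  intro he
  obtain ⟨k', rfl⟩ : ∃ k', k = k' + 1 := ⟨k - 1, by omega⟩
  rw [pos_succ] at he
  have h1 : ‖(3 : ℝ) ^ k' • bloch (EE D k')‖ = 3 ^ k' := by
    rw [norm_smul, bloch_norm (EE_isU D hD k'), mul_one, Real.norm_of_nonneg (by positivity)]
  have h2 : (3 : ℝ) ^ k' • bloch (EE D k') = pos D j - pos D k' := by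
    rw [he]; abel
  have h3 := norm_sub_le (pos D j) (pos D k')
  rw [← h2, h1] at h3
  have h4 := pos_norm D hD j
  have h5 := pos_norm D hD k'
  have h6 : (3 : ℝ) ^ j ≤ 3 ^ k' := pow_le_pow_right₀ (by norm_num) (by omega)
  linarith

lemma leaf_norm (hD : ∀ k, ‖D k‖ ≤ 1) (n : ℕ) (j : ℕ) :
    ‖((3 : ℝ) ^ (n + 1) * ((j : ℝ) + 1)) • bloch (EE D (n + 1))‖ = 3 ^ (n + 1) * (j + 1) := by
  rw [norm_smul, bloch_norm (EE_isU D hD (n + 1)), mul_one, Real.norm_of_nonneg (by positivity)]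

lemma leaf_ne (hD : ∀ k, ‖D k‖ ≤ 1) (n : ℕ) (j k : ℕ) (hk : k < n + 2) :
    pos D (n + 1) + ((3 : ℝ) ^ (n + 1) * ((j : ℝ) + 1)) • bloch (EE D (n + 1)) ≠ pos D k := by
  intro he
  have h2 : ((3 : ℝ) ^ (n + 1) * ((j : ℝ) + 1)) • bloch (EE D (n + 1)) =
      pos D k - pos D (n + 1) := by
    rw [← he]; abel
  have h3 := norm_sub_le (pos D k) (pos D (n + 1))
  rw [← h2, leaf_norm D hD] at h3
  have h4 := pos_norm D hD k
  have h5 := pos_norm D hD (n + 1)
  have h6 : (3 : ℝ) ^ k ≤ 3 ^ (n + 1) := pow_le_pow_right₀ (by norm_num) (by omega)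
  have h7 : (0 : ℝ) < 3 ^ (n + 1) := by positivity
  have h8 : (0 : ℝ) ≤ (3 : ℝ) ^ (n + 1) * j := by positivity
  linarith

lemma bX_injective (hD : ∀ k, ‖D k‖ ≤ 1) (n m : ℕ) : Function.Injective (bX D n m) := by
  rintro (k | j) (k' | j') h
  · have h' : pos D k.val = pos D k'.val := h
    rcases lt_trichotomy k.val k'.val with hlt | heq | hlt
    · exact absurd h' (pos_ne D hD hlt)
    · rw [Fin.ext heq]
    · exact absurd h'.symm (pos_ne D hD hlt)
  · exact absurd h.symm (leaf_ne D hD n j'.val k.val k.isLt)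
  · exact absurd h (leaf_ne D hD n j.val k'.val k'.isLt)
  · have h' : ((3 : ℝ) ^ (n + 1) * ((j.val : ℝ) + 1)) • bloch (EE D (n + 1)) =
        ((3 : ℝ) ^ (n + 1) * ((j'.val : ℝ) + 1)) • bloch (EE D (n + 1)) := add_left_cancel h
    have h1 := congrArg norm h'
    rw [leaf_norm D hD, leaf_norm D hD] at h1
    have h7 : (3 : ℝ) ^ (n + 1) ≠ 0 := by positivity
    have h2 := mul_left_cancel₀ h7 h1
    have h3 : (j.val : ℝ) = j'.val := by linarith
    have h4 : j.val = j'.val := by exact_mod_cast h3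
    rw [Fin.ext h4]

/-- the length of an edge -/
noncomputable def blen (n m : ℕ) : Fin (n + 1) ⊕ Fin m → ℝ
  | Sum.inl k => (3 : ℝ) ^ k.val
  | Sum.inr j => (3 : ℝ) ^ (n + 1) * ((j.val : ℝ) + 1)

lemma blen_pos (n m : ℕ) (e : Fin (n + 1) ⊕ Fin m) : 0 < blen n m e := by
  rcases e with k | j
  · show 0 < (3 : ℝ) ^ k.val
    positivity
  · show 0 < (3 : ℝ) ^ (n + 1) * ((j.val : ℝ) + 1)
    positivity

lemma bX_sub (n m : ℕ) (e : Fin (n + 1) ⊕ Fin m) :
    bX D n m (bsrc (e, true)) - bX D n m (bsrc (e, false)) =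
      blen n m e • bloch (SS D n m e) := by
  rcases e with k | j
  · show pos D (psrc (k, true)).val - pos D (psrc (k, false)).val = _
    rw [psrc_val, psrc_val]
    show pos D (k.val + 1) - pos D k.val = (3 : ℝ) ^ k.val • bloch (EE D k.val)
    rw [pos_succ]
    abel
  · show pos D (n + 1) + ((3 : ℝ) ^ (n + 1) * ((j.val : ℝ) + 1)) • bloch (EE D (n + 1)) -
      pos D (n + 1) = ((3 : ℝ) ^ (n + 1) * ((j.val : ℝ) + 1)) • bloch (EE D (n + 1))
    abel

lemma bX_dir (hD : ∀ k, ‖D k‖ ≤ 1) (n m : ℕ) (e : Fin (n + 1) ⊕ Fin m) :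
    direction (bX D n m) (bsrc (e, false)) (bsrc (e, true)) = bloch (SS D n m e) := by
  have hl := blen_pos n m e
  unfold direction
  rw [bX_sub, norm_smul, bloch_norm (SS_isU D hD n m e), mul_one,
    Real.norm_of_nonneg hl.le, smul_smul, inv_mul_cancel₀ hl.ne', one_smul]

lemma bX_dir' (hD : ∀ k, ‖D k‖ ≤ 1) (n m : ℕ) (e : Fin (n + 1) ⊕ Fin m) :
    direction (bX D n m) (bsrc (e, true)) (bsrc (e, false)) = -bloch (SS D n m e) := by
  rw [← bX_dir D hD]
  unfold direction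
  rw [norm_sub_rev, ← smul_neg, neg_sub]

lemma a0_choice (hD : ∀ k, ‖D k‖ ≤ 1) (n m : ℕ) :
    IsSpinorChoice (bG n m) (bX D n m) (fun d => a0 D n m ((beqv n m).symm d)) := by
  intro d
  obtain ⟨⟨e, c⟩, rfl⟩ := (beqv n m).surjective d
  simp only [Equiv.symm_apply_apply]
  rw [beqv_fst, beqv_snd]
  cases c
  · have h := bloch_spinor (SS_isU D hD n m e)
    rw [← bX_dir D hD n m e] at h
    exact h
  · have h := bloch_spinor_neg (SS_isU D hD n m e)
    rw [← bX_dir' D hD n m e] at h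
    exact h

lemma borient (n m : ℕ) : ∃ Δ : Finset (bG n m).Dart, IsOrientation (bG n m) Δ := by
  classical
  refine ⟨univ.filter fun d => ((beqv n m).symm d).2 = false, fun d => ?_⟩
  obtain ⟨⟨k, c⟩, rfl⟩ := (beqv n m).surjective d
  rw [beqv_symm]
  cases c <;> simp [brev]

/-- the amplitude of the configuration -/
theorem bX_amplitude (hD : ∀ k, ‖D k‖ ≤ 1) (n m : ℕ) (ψ : (bG n m).Dart → Fin 2 → ℂ)
    (Δ : Finset (bG n m).Dart) (hψ : IsSpinorChoice (bG n m) (bX D n m) ψ)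
    (hΔ : IsOrientation (bG n m) Δ) : amplitude (bG n m) ψ Δ = bval D n m := by
  have hp : ∀ d : BD n m, ∃ p : ℂ, p ≠ 0 ∧ ψ (beqv n m d) = p • a0 D n m d := by
    rintro ⟨e, c⟩
    cases c
    · have h := hψ (beqv n m (e, false))
      rw [beqv_fst, beqv_snd] at h
      have h' : IsUnitSpinor (bloch (SS D n m e)) (ψ (beqv n m (e, false))) := by
        rw [← bX_dir D hD n m e]
        exact h
      exact bloch_unique (SS_isU D hD n m e) h'
    · have h := hψ (beqv n m (e, true))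
      rw [beqv_fst, beqv_snd] at h
      have h' : IsUnitSpinor (-bloch (SS D n m e)) (ψ (beqv n m (e, true))) := by
        rw [← bX_dir' D hD n m e]
        exact h
      exact anti_spinor rfl (bloch_spinor (SS_isU D hD n m e)) h'
  choose p hp1 hp2 using hp
  rw [amplitude_bG ψ Δ hΔ]
  have e : (fun d => ψ (beqv n m d)) = fun d => p d • a0 D n m d := funext hp2
  rw [e]
  simp only [QB_smul]
  rw [← Finset.mul_sum, mul_div_mul_left, QB_a0_one D hD, div_one, total_a0 D hD]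
  rw [Finset.prod_ne_zero_iff]
  intro d _
  exact hp1 d

end realise

/-! ### All values -/

/-- the factor of the last two steps -/
noncomputable def gfun (s : ℝ) : ℝ :=
  (3761 / 625) * (1 + s ^ 2) - (10752 / 625) * (s * Real.sqrt (1 - s ^ 2))

lemma gfun_cont : Continuous gfun := by
  unfold gfun
  fun_prop

lemma gfun_zero : gfun 0 = 3761 / 625 := by
  unfold gfun
  simp

lemma gfun_neg : gfun (3 / 5) < 0 := by
  unfold gfun
  have h : Real.sqrt (1 - (3 / 5) ^ 2) = 4 / 5 := by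
    have : (1 - (3 / 5) ^ 2 : ℝ) = (4 / 5) ^ 2 := by norm_num
    rw [this, Real.sqrt_sq (by norm_num)]
  rw [h]
  norm_num

lemma gfun_val (η : ℝ) (h0 : 0 ≤ η) (h1 : η ≤ 6) :
    ∃ s : ℝ, 0 ≤ s ∧ s ≤ 3 / 5 ∧ gfun s = η := by
  have h := intermediate_value_Icc' (a := (0 : ℝ)) (b := 3 / 5) (by norm_num)
    gfun_cont.continuousOn
  have hmem : η ∈ Set.Icc (gfun (3 / 5)) (gfun 0) := by
    rw [gfun_zero]
    exact ⟨gfun_neg.le.trans h0, h1.trans (by norm_num)⟩
  obtain ⟨s, hs, he⟩ := h hmem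
  exact ⟨s, hs.1, hs.2, he⟩

lemma cc_last : cc (-(7 / 25 : ℂ)) = 24 / 25 := by
  unfold cc
  have h1 : ‖(-(7 / 25 : ℂ))‖ = 7 / 25 := by
    rw [norm_neg]
    simp
  rw [h1]
  have : (1 - (7 / 25) ^ 2 : ℝ) = (24 / 25) ^ 2 := by norm_num
  rw [this, Real.sqrt_sq (by norm_num)]

lemma bval_mem (w0 : ℂ) (hw : w0 ∈ WW) (s : ℝ) (hs0 : 0 ≤ s) (hs1 : s ≤ 1) :
    ∃ (D : ℕ → ℂ) (n : ℕ), (∀ k, ‖D k‖ ≤ 1) ∧
      bval D n 64 = (Nat.factorial 64 : ℂ) * (w0 * (gfun s : ℂ)) := by
  obtain ⟨D0, n0, hD0, hst⟩ := hw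
  set D : ℕ → ℂ := fun k => if k < n0 then D0 k else if k = n0 then (s : ℂ) else -(7 / 25)
    with hD
  have e1 : st D n0 = (w0, 0) := by
    rw [← hst]
    apply st_congr
    intro k hk
    rw [hD]
    simp only
    rw [if_pos hk]
  have e2 : D n0 = (s : ℂ) := by
    rw [hD]
    simp
  have e3 : D (n0 + 1) = -(7 / 25) := by
    rw [hD]
    simp
  have hle : ∀ k, ‖D k‖ ≤ 1 := by
    intro k
    rw [hD]
    simp only
    split_ifs
    · exact hD0 k
    · rw [Complex.norm_real, Real.norm_of_nonneg hs0]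
      exact hs1
    · rw [norm_neg]
      norm_num
  have hns : ‖(s : ℂ)‖ = s := by rw [Complex.norm_real, Real.norm_of_nonneg hs0]
  have e4 : st D (n0 + 1) = ((1 + (s : ℂ) ^ 2) * w0, (Real.sqrt (1 - s ^ 2) : ℂ) * s * w0) := by
    rw [st, e1, e2, GG]
    unfold cc
    rw [hns]
    refine Prod.ext ?_ ?_
    · simp only
      push_cast
      ring
    · simp only
      ring
  refine ⟨D, n0 + 1, hle, ?_⟩
  unfold bval
  rw [e4, e3, cc_last]
  simp only [map_neg, map_div₀]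
  have c7 : conj (7 : ℂ) = 7 := Complex.conj_ofNat 7
  have c25 : conj (25 : ℂ) = 25 := Complex.conj_ofNat 25
  rw [c7, c25]
  unfold gfun
  push_cast
  ring

/-- **Every complex number is reached.** -/
theorem all_bval (w : ℂ) : ∃ (D : ℕ → ℂ) (n : ℕ), (∀ k, ‖D k‖ ≤ 1) ∧ bval D n 64 = w := by
  have hF : (0 : ℝ) < (Nat.factorial 64 : ℝ) := by exact_mod_cast Nat.factorial_pos 64
  by_cases hw : w = 0
  · obtain ⟨s, h0, h1, hg⟩ := gfun_val 0 le_rfl (by norm_num)
    obtain ⟨D, n, hD, h⟩ := bval_mem 2 (all_mem 2 (by norm_num)) s h0 (h1.trans (by norm_num))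
    refine ⟨D, n, hD, ?_⟩
    rw [h, hg, hw]
    simp
  · have hwn : 0 < ‖w‖ := norm_pos_iff.mpr hw
    set F : ℝ := (Nat.factorial 64 : ℝ) with hFdef
    set η : ℝ := min 6 (‖w‖ / (2 * F)) with hη
    have hη0 : 0 < η := lt_min (by norm_num) (by positivity)
    have hη1 : η ≤ 6 := min_le_left _ _
    have hη2 : η ≤ ‖w‖ / (2 * F) := min_le_right _ _
    obtain ⟨s, h0, h1, hg⟩ := gfun_val η hη0.le hη1
    set w0 : ℂ := w / ((F * η : ℝ) : ℂ) with hw0
    have hn0 : ‖w0‖ = ‖w‖ / (F * η) := by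
      rw [hw0, norm_div, Complex.norm_real, Real.norm_of_nonneg (by positivity)]
    have hgt : 1 < ‖w0‖ := by
      rw [hn0, one_lt_div (by positivity)]
      rw [le_div_iff₀ (by positivity)] at hη2
      nlinarith
    obtain ⟨D, n, hD, h⟩ := bval_mem w0 (all_mem w0 hgt) s h0 (h1.trans (by norm_num))
    refine ⟨D, n, hD, ?_⟩
    rw [h, hg, hw0]
    have e : ((Nat.factorial 64 : ℕ) : ℂ) = (F : ℂ) := by rw [hFdef]; push_cast; rfl
    rw [e]
    have hFc : (F : ℂ) ≠ 0 := by exact_mod_cast hF.ne'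
    have hηc : (η : ℂ) ≠ 0 := by exact_mod_cast hη0.ne'
    push_cast
    field_simp

end Pool.Agent.Y416.TA
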