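import Pool.Agent.Results.MP_84cbe7_co.TreeAmplitude

/-!
# The amplitude function of a path is given by transfer matrices
-/

open Finset
open Pool.Agent.Results.MP_84cbe7_co.TreeAmplitude (E3 omega IsSpinorChoice IsHalf firstPreserving
  amplitude Admissible IsUnitSpinor unitDir dotSigma)

namespace Pool.Agent.Y416.TA

/-- the path with `n + 2` vertices `0, 1, …, n + 1` -/
def pathG (n : ℕ) : SimpleGraph (Fin (n + 2)) where
  Adj u v := u.val + 1 = v.val ∨ v.val + 1 = u.val
  symm := by
    constructor
    intro u v h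
    exact h.symm
  loopless := by
    constructor
    intro u h
    rcases h with h | h <;> omega

instance (n : ℕ) : DecidableRel (pathG n).Adj := by
  intro u v
  unfold pathG
  infer_instance

/-- abstract darts: the edge `k`, upwards (`false`) or downwards (`true`) -/
abbrev PD (n : ℕ) : Type := Fin (n + 1) × Bool

/-- the source of a dart -/
def psrc {n : ℕ} (d : PD n) : Fin (n + 2) := if d.2 then d.1.succ else d.1.castSucc

/-- reversal -/
def prev {n : ℕ} (d : PD n) : PD n := (d.1, !d.2)

lemma prev_prev {n : ℕ} (d : PD n) : prev (prev d) = d := by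
  unfold prev; simp

lemma psrc_val {n : ℕ} (d : PD n) : (psrc d).val = d.1.val + (if d.2 then 1 else 0) := by
  unfold psrc
  split_ifs <;> simp

lemma padj {n : ℕ} (d : PD n) : (pathG n).Adj (psrc d) (psrc (prev d)) := by
  obtain ⟨k, b⟩ := d
  show (psrc (k, b)).val + 1 = (psrc (prev (k, b))).val ∨ _
  rw [psrc_val, psrc_val]
  cases b
  · left; simp [prev]
  · right
    show (psrc (prev (k, true))).val + 1 = (psrc (k, true)).val
    rw [psrc_val, psrc_val]; simp [prev]

/-- the map from abstract darts to darts -/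
def ptoDart {n : ℕ} (d : PD n) : (pathG n).Dart := ⟨(psrc d, psrc (prev d)), padj d⟩

lemma ptoDart_bijective {n : ℕ} : Function.Bijective (ptoDart (n := n)) := by
  constructor
  · rintro ⟨k, b⟩ ⟨k', b'⟩ h
    have h' := congrArg SimpleGraph.Dart.toProd h
    simp only [ptoDart, Prod.mk.injEq] at h'
    have h1 := congrArg Fin.val h'.1
    have h2 := congrArg Fin.val h'.2
    rw [psrc_val, psrc_val] at h1 h2
    cases b <;> cases b' <;> simp [prev] at h1 h2
    · exact Prod.ext (Fin.ext h1) rfl
    · omega
    · omega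
    · exact Prod.ext (Fin.ext h1) rfl
  · rintro ⟨⟨u, v⟩, huv⟩
    rcases huv with h | h
    · replace h : u.val + 1 = v.val := h
      have hu : u.val < n + 1 := by have := v.isLt; omega
      refine ⟨(⟨u.val, hu⟩, false), SimpleGraph.Dart.ext _ _ (Prod.ext (Fin.ext ?_) (Fin.ext ?_))⟩
      · show (psrc _).val = _
        rw [psrc_val]; simp
      · show (psrc _).val = _
        rw [psrc_val]; simp [prev]; exact h
    · replace h : v.val + 1 = u.val := h
      have hv : v.val < n + 1 := by have := u.isLt; omega
      refine ⟨(⟨v.val, hv⟩, true), SimpleGraph.Dart.ext _ _ (Prod.ext (Fin.ext ?_) (Fin.ext ?_))⟩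
      · show (psrc _).val = _
        rw [psrc_val]; simp; exact h
      · show (psrc _).val = _
        rw [psrc_val]; simp [prev]

/-- abstract darts are the darts -/
noncomputable def peqv (n : ℕ) : PD n ≃ (pathG n).Dart := Equiv.ofBijective _ ptoDart_bijective

lemma peqv_fst {n : ℕ} (d : PD n) : (peqv n d).fst = psrc d := rfl

lemma peqv_snd {n : ℕ} (d : PD n) : (peqv n d).snd = psrc (prev d) := rfl

lemma peqv_symm {n : ℕ} (d : PD n) : (peqv n d).symm = peqv n (prev d) := by
  have h : psrc (prev (prev d)) = psrc d := by rw [prev_prev]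
  refine SimpleGraph.Dart.ext _ _ (Prod.ext rfl ?_)
  exact h.symm

lemma pathG_isTree (n : ℕ) : (pathG n).IsTree := by
  rw [SimpleGraph.isTree_iff_connected_and_card]
  have hreach : ∀ k : ℕ, ∀ h : k < n + 2, (pathG n).Reachable ⟨0, by omega⟩ ⟨k, h⟩ := by
    intro k
    induction k with
    | zero => intro h; exact SimpleGraph.Reachable.refl _
    | succ k ih =>
      intro h
      refine (ih (by omega)).trans (SimpleGraph.Adj.reachable ?_)
      left; rfl
  refine ⟨SimpleGraph.connected_iff_exists_forall_reachable _ |>.2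
    ⟨⟨0, by omega⟩, fun v => hreach v.val v.isLt⟩, ?_⟩
  have h1 : Fintype.card (pathG n).Dart = 2 * (n + 1) := by
    rw [← Fintype.card_congr (peqv n)]
    simp [mul_comm]
  have h2 := (pathG n).dart_card_eq_twice_card_edges
  have h3 : Nat.card (pathG n).edgeSet = #(pathG n).edgeFinset := by
    rw [Nat.card_eq_fintype_card, SimpleGraph.edgeFinset_card]
  rw [h3, Nat.card_eq_fintype_card, Fintype.card_fin]
  omega

/-! ### The permutations -/

/-- permutations of the abstract darts preserving the source -/
def ppres (n : ℕ) : Finset (Equiv.Perm (PD n)) := univ.filter fun τ => ∀ d, psrc (τ d) = psrc d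

/-- extension of a bit vector -/
def bx {n : ℕ} (b : Fin n → Bool) (k : ℕ) : Bool := if h : k < n then b ⟨k, h⟩ else false

lemma bx_lt {n : ℕ} {b : Fin n → Bool} {k : ℕ} (h : bx b k = true) : k < n := by
  by_contra hcon
  rw [bx, dif_neg hcon] at h
  exact Bool.false_ne_true h

/-- the map on darts attached to bits -/
def pphi {n : ℕ} (b : Fin n → Bool) (d : PD n) : PD n :=
  if d.2 then
    (if h : bx b d.1.val = true then (⟨d.1.val + 1, by have := bx_lt h; omega⟩, false) else d)
  else
    (if 0 < d.1.val ∧ bx b (d.1.val - 1) = true then (⟨d.1.val - 1, by omega⟩, true) else d)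

lemma pphi_true {n : ℕ} (b : Fin n → Bool) (k : Fin (n + 1)) (h : bx b k.val = true) :
    pphi b (k, true) = (⟨k.val + 1, by have := bx_lt h; omega⟩, false) := by
  unfold pphi
  rw [if_pos rfl, dif_pos h]

lemma pphi_true' {n : ℕ} (b : Fin n → Bool) (k : Fin (n + 1)) (h : ¬ bx b k.val = true) :
    pphi b (k, true) = (k, true) := by
  unfold pphi
  rw [if_pos rfl, dif_neg h]

lemma pphi_false {n : ℕ} (b : Fin n → Bool) (k : Fin (n + 1))
    (h : 0 < k.val ∧ bx b (k.val - 1) = true) :
    pphi b (k, false) = (⟨k.val - 1, by omega⟩, true) := by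
  unfold pphi
  rw [if_neg (by simp), if_pos h]

lemma pphi_false' {n : ℕ} (b : Fin n → Bool) (k : Fin (n + 1))
    (h : ¬ (0 < k.val ∧ bx b (k.val - 1) = true)) :
    pphi b (k, false) = (k, false) := by
  unfold pphi
  rw [if_neg (by simp), if_neg h]

lemma pphi_pphi {n : ℕ} (b : Fin n → Bool) (d : PD n) : pphi b (pphi b d) = d := by
  obtain ⟨k, c⟩ := d
  cases c
  · by_cases h : 0 < k.val ∧ bx b (k.val - 1) = true
    · rw [pphi_false b k h, pphi_true b _ h.2]
      refine Prod.ext (Fin.ext ?_) rfl
      show k.val - 1 + 1 = k.val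
      omega
    · rw [pphi_false' b k h, pphi_false' b k h]
  · by_cases h : bx b k.val = true
    · rw [pphi_true b k h, pphi_false b _ ⟨by simp, by simpa using h⟩]
      refine Prod.ext (Fin.ext ?_) rfl
      show k.val + 1 - 1 = k.val
      omega
    · rw [pphi_true' b k h, pphi_true' b k h]

/-- the permutation attached to bits -/
def pPhi {n : ℕ} (b : Fin n → Bool) : Equiv.Perm (PD n) where
  toFun := pphi b
  invFun := pphi b
  left_inv := pphi_pphi b
  right_inv := pphi_pphi b

lemma pPhi_mem {n : ℕ} (b : Fin n → Bool) : pPhi b ∈ ppres n := by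
  rw [ppres, mem_filter]
  refine ⟨mem_univ _, ?_⟩
  rintro ⟨k, c⟩
  show psrc (pphi b (k, c)) = _
  apply Fin.ext
  rw [psrc_val, psrc_val]
  cases c
  · by_cases h : 0 < k.val ∧ bx b (k.val - 1) = true
    · rw [pphi_false b k h]; simp; omega
    · rw [pphi_false' b k h]
  · by_cases h : bx b k.val = true
    · rw [pphi_true b k h]; simp
    · rw [pphi_true' b k h]

lemma pPhi_injective {n : ℕ} {b b' : Fin n → Bool} (h : pPhi b = pPhi b') : b = b' := by
  funext j
  have h1 : pphi b (j.castSucc, true) = pphi b' (j.castSucc, true) :=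
    congrArg (fun τ : Equiv.Perm (PD n) => τ (j.castSucc, true)) h
  have e : ∀ c : Fin n → Bool, bx c (j.castSucc).val = c j := by
    intro c
    unfold bx
    rw [dif_pos (by simp)]
    rfl
  by_cases hb : b j = true <;> by_cases hb' : b' j = true
  · rw [hb, hb']
  · rw [pphi_true b _ (by rw [e]; exact hb), pphi_true' b' _ (by rw [e]; exact hb')] at h1
    simp at h1
  · rw [pphi_true' b _ (by rw [e]; exact hb), pphi_true b' _ (by rw [e]; exact hb')] at h1
    simp at h1
  · rw [Bool.not_eq_true] at hb hb'
    rw [hb, hb']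

lemma pPhi_surjective {n : ℕ} {τ : Equiv.Perm (PD n)} (hτ : τ ∈ ppres n) :
    ∃ b : Fin n → Bool, pPhi b = τ := by
  rw [ppres, mem_filter] at hτ
  have hs : ∀ d : PD n, (τ d).1.val + (if (τ d).2 then 1 else 0) =
      d.1.val + (if d.2 then 1 else 0) := by
    intro d
    have := congrArg Fin.val (hτ.2 d)
    rwa [psrc_val, psrc_val] at this
  -- possible values
  have ht : ∀ k : Fin (n + 1), τ (k, true) = (k, true) ∨
      ∃ h : k.val + 1 < n + 1, τ (k, true) = (⟨k.val + 1, h⟩, false) := by
    intro k
    have h1 := hs (k, true)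
    rcases hc : (τ (k, true)).2 with _ | _
    · right
      rw [hc] at h1
      simp at h1
      refine ⟨by have := (τ (k, true)).1.isLt; omega, Prod.ext (Fin.ext ?_) hc⟩
      exact h1
    · left
      rw [hc] at h1
      simp at h1
      exact Prod.ext (Fin.ext h1) hc
  have hf : ∀ k : Fin (n + 1), τ (k, false) = (k, false) ∨
      ∃ h : 0 < k.val, τ (k, false) = (⟨k.val - 1, by omega⟩, true) := by
    intro k
    have h1 := hs (k, false)
    rcases hc : (τ (k, false)).2 with _ | _
    · left
      rw [hc] at h1
      simp at h1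
      exact Prod.ext (Fin.ext h1) hc
    · right
      rw [hc] at h1
      simp at h1
      refine ⟨by omega, Prod.ext (Fin.ext ?_) hc⟩
      show (τ (k, false)).1.val = k.val - 1
      omega
  refine ⟨fun j => decide ((τ (j.castSucc, true)).2 = false), ?_⟩
  have hbit : ∀ k : Fin (n + 1), bx (fun j : Fin n => decide ((τ (j.castSucc, true)).2 = false))
      k.val = true ↔ (τ (k, true)).2 = false := by
    intro k
    unfold bx
    by_cases hk : k.val < n
    · rw [dif_pos hk]
      have e : (⟨k.val, hk⟩ : Fin n).castSucc = k := Fin.ext rfl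
      show decide ((τ ((⟨k.val, hk⟩ : Fin n).castSucc, true)).2 = false) = true ↔ _
      rw [e]
      simp
    · rw [dif_neg hk]
      rcases ht k with h | ⟨h, _⟩
      · rw [h]; simp
      · omega
  ext1 d
  obtain ⟨k, c⟩ := d
  show pphi _ (k, c) = _
  cases c
  · -- upward darts
    rcases Nat.eq_zero_or_pos k.val with h0 | h0
    · rw [pphi_false' _ k (by omega)]
      rcases hf k with h | ⟨h, _⟩
      · exact h.symm
      · omega
    · set j : Fin (n + 1) := ⟨k.val - 1, by omega⟩ with hj
      have hj1 : j.val + 1 = k.val := by rw [hj]; show k.val - 1 + 1 = k.val; omega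
      by_cases hb : (τ (j, true)).2 = false
      · have hbb := (hbit j).mpr hb
        rw [pphi_false _ k ⟨h0, hbb⟩]
        -- `τ (j, true) = (k, false)`
        have h1 : τ (j, true) = (k, false) := by
          rcases ht j with h | ⟨h, h'⟩
          · rw [h] at hb; simp at hb
          · rw [h']
            exact Prod.ext (Fin.ext hj1) rfl
        rcases hf k with h | ⟨h, h'⟩
        · exfalso
          have : (j, true) = ((k, false) : PD n) := τ.injective (h1.trans h.symm)
          simp at this
        · exact h'.symm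
      · have hbb : ¬ bx (fun j : Fin n => decide ((τ (j.castSucc, true)).2 = false)) j.val = true :=
          fun h => hb ((hbit j).mp h)
        rw [pphi_false' _ k (fun h => hbb h.2)]
        have h1 : τ (j, true) = (j, true) := by
          rcases ht j with h | ⟨h, h'⟩
          · exact h
          · rw [h'] at hb; simp at hb
        rcases hf k with h | ⟨h, h'⟩
        · exact h.symm
        · exfalso
          have : (j, true) = ((k, false) : PD n) := τ.injective (h1.trans h'.symm)
          simp at this
  · by_cases hb : (τ (k, true)).2 = false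
    · have hbb := (hbit k).mpr hb
      rw [pphi_true _ k hbb]
      rcases ht k with h | ⟨h, h'⟩
      · rw [h] at hb; simp at hb
      · exact h'.symm
    · have hbb : ¬ bx (fun j : Fin n => decide ((τ (j.castSucc, true)).2 = false)) k.val = true :=
        fun h => hb ((hbit k).mp h)
      rw [pphi_true' _ k hbb]
      rcases ht k with h | ⟨h, h'⟩
      · exact h.symm
      · rw [h'] at hb; simp at hb

lemma sum_pPhi {n : ℕ} (F : Equiv.Perm (PD n) → ℂ) :
    ∑ τ ∈ ppres n, F τ = ∑ b : Fin n → Bool, F (pPhi b) := by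
  symm
  refine Finset.sum_bij (fun b _ => pPhi b) ?_ ?_ ?_ ?_
  · intro b _
    exact pPhi_mem b
  · intro b _ b' _ h
    exact pPhi_injective h
  · intro τ hτ
    obtain ⟨b, h⟩ := pPhi_surjective hτ
    exact ⟨b, mem_univ _, h⟩
  · intro b _
    rfl

lemma sum_ppres {n : ℕ} (F : Equiv.Perm (pathG n).Dart → ℂ) :
    ∑ σ ∈ firstPreserving (pathG n), F σ =
      ∑ τ ∈ ppres n, F ((peqv n).permCongr τ) := by
  symm
  refine Finset.sum_bij (fun τ _ => (peqv n).permCongr τ) ?_ ?_ ?_ ?_
  · intro τ hτ
    rw [ppres, mem_filter] at hτ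
    rw [firstPreserving, mem_filter]
    refine ⟨mem_univ _, fun d => ?_⟩
    obtain ⟨e, rfl⟩ := (peqv n).surjective d
    simp only [Equiv.permCongr_apply, Equiv.symm_apply_apply]
    rw [peqv_fst, peqv_fst]
    exact hτ.2 e
  · intro τ _ τ' _ h
    exact (peqv n).permCongr.injective h
  · intro σ hσ
    rw [firstPreserving, mem_filter] at hσ
    refine ⟨(peqv n).permCongr.symm σ, ?_, ?_⟩
    · rw [ppres, mem_filter]
      refine ⟨mem_univ _, fun d => ?_⟩
      have := hσ.2 (peqv n d)
      rw [peqv_fst] at this
      rw [← this, ← peqv_fst]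
      simp
    · exact (peqv n).permCongr.apply_symm_apply σ
  · intro τ _
    rfl

/-- product over a half of the darts of an antisymmetric function -/
lemma pprod_half {n : ℕ} (Δ : Finset (pathG n).Dart) (hΔ : IsHalf _ Δ)
    (f : (pathG n).Dart → ℂ) (hf : ∀ d, f d.symm = - f d) :
    ∏ d ∈ Δ, f d =
      (∏ k : Fin (n + 1), (if peqv n (k, false) ∈ Δ then (1 : ℂ) else -1)) *
      ∏ k : Fin (n + 1), f (peqv n (k, false)) := by
  have h1 : ∏ d ∈ Δ, f d = ∏ d : (pathG n).Dart, if d ∈ Δ then f d else 1 := by
    rw [Finset.prod_ite_mem, Finset.univ_inter]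
  rw [h1, ← Equiv.prod_comp (peqv n), Fintype.prod_prod_type, ← Finset.prod_mul_distrib]
  refine Finset.prod_congr rfl fun k _ => ?_
  rw [Fintype.prod_bool]
  have e1 : (peqv n (k, false)).symm = peqv n (k, true) := peqv_symm _
  rcases hΔ (peqv n (k, false)) with ⟨ha, hb⟩ | ⟨ha, hb⟩
  · rw [e1] at hb
    rw [if_neg hb, if_pos ha, if_pos ha]
  · rw [e1] at hb
    rw [if_pos hb, if_neg ha, if_neg ha, ← e1, hf]
    ring

/-! ### The transfer formula -/

section transfer
variable (A : ℕ → Bool → Fin 2 → ℂ)

/-- the partial contractions -/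
noncomputable def LL : ℕ → Fin 2 → ℂ
  | 0 => A 0 false
  | (k + 1) => omega (LL k) (A k true) • A (k + 1) false + omega (LL k) (A (k + 1) false) • A k true

/-- the spinor at the upward dart of edge `k` -/
def UU (β : ℕ → Bool) (k : ℕ) : Fin 2 → ℂ :=
  if 0 < k ∧ β (k - 1) = true then A (k - 1) true else A k false

/-- the spinor at the downward dart of edge `k` -/
def VV (β : ℕ → Bool) (k : ℕ) : Fin 2 → ℂ :=
  if β k = true then A (k + 1) false else A k true

lemma omega_add_right (a b c : Fin 2 → ℂ) : omega a (b + c) = omega a b + omega a c := by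
  simp only [omega, Pi.add_apply]; ring

lemma omega_add_left (a b c : Fin 2 → ℂ) : omega (a + b) c = omega a c + omega b c := by
  simp only [omega, Pi.add_apply]; ring

lemma omega_smul_right (r : ℂ) (a b : Fin 2 → ℂ) : omega a (r • b) = r * omega a b := by
  simp only [omega, Pi.smul_apply, smul_eq_mul]; ring

lemma omega_smul_left (r : ℂ) (a b : Fin 2 → ℂ) : omega (r • a) b = r * omega a b := by
  simp only [omega, Pi.smul_apply, smul_eq_mul]; ring

lemma bx_snoc_lt {n : ℕ} (y : Bool) (b : Fin n → Bool) {k : ℕ} (hk : k < n) :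
    bx (Fin.snoc (α := fun _ => Bool) b y : Fin (n + 1) → Bool) k = bx b k := by
  unfold bx
  rw [dif_pos hk, dif_pos (by omega)]
  have e : (⟨k, by omega⟩ : Fin (n + 1)) = (⟨k, hk⟩ : Fin n).castSucc := rfl
  rw [e, Fin.snoc_castSucc]

lemma bx_snoc_eq {n : ℕ} (y : Bool) (b : Fin n → Bool) :
    bx (Fin.snoc (α := fun _ => Bool) b y : Fin (n + 1) → Bool) n = y := by
  unfold bx
  rw [dif_pos (by omega)]
  have e : (⟨n, by omega⟩ : Fin (n + 1)) = Fin.last n := rfl
  rw [e, Fin.snoc_last]

lemma sum_bits (n : ℕ) : ∀ x : Fin 2 → ℂ,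
    ∑ b : Fin n → Bool, (∏ k ∈ range n, omega (UU A (bx b) k) (VV A (bx b) k)) *
      omega (UU A (bx b) n) x = omega (LL A n) x := by
  induction n with
  | zero =>
    intro x
    rw [Fintype.sum_unique]
    simp [UU, LL]
  | succ n ih =>
    intro x
    rw [← Equiv.sum_comp (Fin.snocEquiv (fun _ : Fin (n + 1) => Bool)), Fintype.sum_prod_type]
    have hU : ∀ (y : Bool) (b : Fin n → Bool) (k : ℕ), k ≤ n →
        UU A (bx (Fin.snoc (α := fun _ => Bool) b y : Fin (n + 1) → Bool)) k = UU A (bx b) k := by
      intro y b k hk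
      unfold UU
      by_cases h0 : 0 < k
      · rw [bx_snoc_lt y b (by omega : k - 1 < n)]
      · simp [h0]
    have hV : ∀ (y : Bool) (b : Fin n → Bool) (k : ℕ), k < n →
        VV A (bx (Fin.snoc (α := fun _ => Bool) b y : Fin (n + 1) → Bool)) k = VV A (bx b) k := by
      intro y b k hk
      unfold VV
      rw [bx_snoc_lt y b hk]
    have hterm : ∀ (y : Bool) (b : Fin n → Bool),
        (∏ k ∈ range (n + 1),
          omega (UU A (bx (Fin.snoc (α := fun _ => Bool) b y : Fin (n + 1) → Bool)) k)
            (VV A (bx (Fin.snoc (α := fun _ => Bool) b y : Fin (n + 1) → Bool)) k)) *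
          omega (UU A (bx (Fin.snoc (α := fun _ => Bool) b y : Fin (n + 1) → Bool)) (n + 1)) x =
        (∏ k ∈ range n, omega (UU A (bx b) k) (VV A (bx b) k)) *
          (omega (UU A (bx b) n) (if y = true then A (n + 1) false else A n true) *
            omega (if y = true then A n true else A (n + 1) false) x) := by
      intro y b
      rw [Finset.prod_range_succ]
      have e1 : ∏ k ∈ range n,
          omega (UU A (bx (Fin.snoc (α := fun _ => Bool) b y : Fin (n + 1) → Bool)) k)
            (VV A (bx (Fin.snoc (α := fun _ => Bool) b y : Fin (n + 1) → Bool)) k) =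
          ∏ k ∈ range n, omega (UU A (bx b) k) (VV A (bx b) k) := by
        apply Finset.prod_congr rfl
        intro k hk
        rw [Finset.mem_range] at hk
        rw [hU y b k hk.le, hV y b k hk]
      have e2 : VV A (bx (Fin.snoc (α := fun _ => Bool) b y : Fin (n + 1) → Bool)) n =
          if y = true then A (n + 1) false else A n true := by
        unfold VV
        rw [bx_snoc_eq]
      have e3 : UU A (bx (Fin.snoc (α := fun _ => Bool) b y : Fin (n + 1) → Bool)) (n + 1) =
          if y = true then A n true else A (n + 1) false := by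
        unfold UU
        rw [Nat.add_sub_cancel, bx_snoc_eq]
        simp
      rw [e1, hU y b n le_rfl, e2, e3]
      ring
    have hsn : ∀ (y : Bool) (b : Fin n → Bool),
        (Fin.snocEquiv (fun _ : Fin (n + 1) => Bool)) (y, b) =
          (Fin.snoc (α := fun _ => Bool) b y : Fin (n + 1) → Bool) := fun y b => rfl
    simp only [hsn, hterm]
    rw [Fintype.sum_bool, ← Finset.sum_add_distrib]
    have hstep : ∀ b : Fin n → Bool,
        (∏ k ∈ range n, omega (UU A (bx b) k) (VV A (bx b) k)) *
          (omega (UU A (bx b) n) (if true = true then A (n + 1) false else A n true) *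
            omega (if true = true then A n true else A (n + 1) false) x) +
        (∏ k ∈ range n, omega (UU A (bx b) k) (VV A (bx b) k)) *
          (omega (UU A (bx b) n) (if false = true then A (n + 1) false else A n true) *
            omega (if false = true then A n true else A (n + 1) false) x) =
        (∏ k ∈ range n, omega (UU A (bx b) k) (VV A (bx b) k)) *
          omega (UU A (bx b) n)
            (omega (A n true) x • A (n + 1) false + omega (A (n + 1) false) x • A n true) := by
      intro b
      rw [omega_add_right, omega_smul_right, omega_smul_right]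
      simp only [if_true, Bool.false_eq_true, if_false]
      ring
    rw [Finset.sum_congr rfl (fun b _ => hstep b), ih]
    rw [LL, omega_add_right, omega_smul_right, omega_smul_right, omega_add_left, omega_smul_left,
      omega_smul_left]
    ring

end transfer

/-- extension of a function on the abstract darts -/
noncomputable def extA {n : ℕ} (a : PD n → Fin 2 → ℂ) (k : ℕ) (c : Bool) : Fin 2 → ℂ :=
  if h : k < n + 1 then a (⟨k, h⟩, c) else 0

lemma extA_val {n : ℕ} (a : PD n → Fin 2 → ℂ) (k : Fin (n + 1)) (c : Bool) :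
    extA a k.val c = a (k, c) := by
  unfold extA
  rw [dif_pos k.isLt]

/-- the product over the upward darts -/
noncomputable def QP {n : ℕ} (a : PD n → Fin 2 → ℂ) (τ : Equiv.Perm (PD n)) : ℂ :=
  ∏ k : Fin (n + 1), omega (a (τ (k, false))) (a (τ (k, true)))

lemma QP_pPhi {n : ℕ} (a : PD n → Fin 2 → ℂ) (b : Fin n → Bool) :
    QP a (pPhi b) = (∏ k ∈ range n, omega (UU (extA a) (bx b) k) (VV (extA a) (bx b) k)) *
      omega (UU (extA a) (bx b) n) (extA a n true) := by
  have h1 : ∀ k : Fin (n + 1), omega (a (pPhi b (k, false))) (a (pPhi b (k, true))) =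
      omega (UU (extA a) (bx b) k.val) (VV (extA a) (bx b) k.val) := by
    intro k
    congr 1
    · show a (pphi b (k, false)) = _
      unfold UU
      by_cases h : 0 < k.val ∧ bx b (k.val - 1) = true
      · rw [pphi_false b k h, if_pos h]
        exact (extA_val a ⟨k.val - 1, by omega⟩ true).symm
      · rw [pphi_false' b k h, if_neg h, extA_val]
    · show a (pphi b (k, true)) = _
      unfold VV
      by_cases h : bx b k.val = true
      · rw [pphi_true b k h, if_pos h]
        exact (extA_val a ⟨k.val + 1, by have := bx_lt h; omega⟩ false).symm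
      · rw [pphi_true' b k h, if_neg h, extA_val]
  unfold QP
  rw [Finset.prod_congr rfl (fun k _ => h1 k)]
  rw [Fin.prod_univ_eq_prod_range
    (fun k => omega (UU (extA a) (bx b) k) (VV (extA a) (bx b) k)) (n + 1),
    Finset.prod_range_succ]
  congr 2
  unfold VV
  have : ¬ bx b n = true := by
    intro h
    have := bx_lt h
    omega
  rw [if_neg this]

lemma QP_one {n : ℕ} (a : PD n → Fin 2 → ℂ) :
    QP a 1 = ∏ k ∈ range (n + 1), omega (extA a k false) (extA a k true) := by
  unfold QP
  rw [← Fin.prod_univ_eq_prod_range (fun k => omega (extA a k false) (extA a k true)) (n + 1)]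
  apply Finset.prod_congr rfl
  intro k _
  rw [extA_val, extA_val]
  rfl

/-- the sequence of spinors attached to a spinor choice on the path -/
noncomputable def seqOf {n : ℕ} (ψ : (pathG n).Dart → Fin 2 → ℂ) : ℕ → Bool → Fin 2 → ℂ :=
  extA (fun d : PD n => ψ (peqv n d))

/-- **The transfer formula.** -/
theorem amplitude_path {n : ℕ} (ψ : (pathG n).Dart → Fin 2 → ℂ)
    (Δ : Finset (pathG n).Dart) (hΔ : IsHalf _ Δ) :
    amplitude (pathG n) ψ Δ = omega (LL (seqOf ψ) n) (seqOf ψ n true) /
      ∏ k ∈ range (n + 1), omega (seqOf ψ k false) (seqOf ψ k true) := by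
  set a : PD n → Fin 2 → ℂ := fun d => ψ (peqv n d) with ha
  set ε : ℂ := ∏ k : Fin (n + 1), (if peqv n (k, false) ∈ Δ then (1 : ℂ) else -1) with hε
  have hε0 : ε ≠ 0 := by
    rw [hε, Finset.prod_ne_zero_iff]
    intro k _
    split_ifs <;> simp
  have hterm : ∀ τ : Equiv.Perm (PD n),
      ∏ d ∈ Δ, omega (ψ ((peqv n).permCongr τ d)) (ψ ((peqv n).permCongr τ d.symm)) =
        ε * QP a τ := by
    intro τ
    rw [pprod_half Δ hΔ (fun d => omega (ψ ((peqv n).permCongr τ d))
      (ψ ((peqv n).permCongr τ d.symm)))]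
    · rw [← hε]
      congr 1
      unfold QP
      refine Finset.prod_congr rfl fun k _ => ?_
      have e : ∀ c, (peqv n).permCongr τ (peqv n (k, c)) = peqv n (τ (k, c)) := by
        intro c
        simp [Equiv.permCongr_apply]
      have e1 : (peqv n (k, false)).symm = peqv n (k, true) := peqv_symm _
      rw [e1, e, e]
    · intro d
      simp only [SimpleGraph.Dart.symm_symm, omega]
      ring
  have hden : ∏ d ∈ Δ, omega (ψ d) (ψ d.symm) = ε * QP a 1 := by
    rw [← hterm 1]
    refine Finset.prod_congr rfl fun d _ => ?_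
    simp [Equiv.permCongr_apply]
  rw [amplitude, sum_ppres, hden]
  simp only [hterm]
  rw [← Finset.mul_sum, mul_div_mul_left _ _ hε0, sum_pPhi, QP_one]
  simp only [QP_pPhi]
  rw [sum_bits]
  rfl

end Pool.Agent.Y416.TA
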