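import Pool.Agent.Y416.TA.Alg

/-!
# All complex numbers outside the closed unit disc are reached
-/

open Finset ComplexConjugate

namespace Pool.Agent.Y416.TA

theorem all_mem (w : ℂ) (hw : 1 < ‖w‖) : w ∈ WW := by
  set μ : ℝ := Real.log ‖w‖ with hμ
  have hμ0 : 0 < μ := Real.log_pos hw
  have hw0 : w ≠ 0 := by
    rintro rfl
    simp at hw
    linarith
  have hexpμ : Real.exp μ = ‖w‖ := Real.exp_log (norm_pos_iff.mpr hw0)
  obtain ⟨m, hm⟩ := exists_nat_gt (2 * Real.pi / μ)
  have hpi := Real.pi_pos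
  have hm0 : (0 : ℝ) < m := lt_of_le_of_lt (by positivity) hm
  rw [div_lt_iff₀ hμ0] at hm
  set A : ℝ := 2 * m with hA
  set B : ℝ := 2 * (m : ℝ) ^ 2 with hB
  have hA0 : 0 < A := by positivity
  have hB0 : 0 < B := by positivity
  have hBA : 2 * Real.pi / B < μ / A := by
    rw [div_lt_div_iff₀ hB0 hA0, hA, hB]
    nlinarith
  set τ : ℝ := (2 * Real.pi / B + μ / A) / 2 with hτ
  have hτ1 : 2 * Real.pi / B < τ := by rw [hτ]; linarith
  have hτ2 : τ < μ / A := by rw [hτ]; linarith
  have hτ0 : 0 < τ := lt_trans (by positivity) hτ1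
  have h1 : 2 * Real.pi < B * τ := by
    rw [div_lt_iff₀ hB0] at hτ1; linarith
  have h2 : A * τ < μ := by
    rw [lt_div_iff₀ hA0] at hτ2; linarith
  set η : ℝ := min ((μ - A * τ) / τ) ((B * τ - 2 * Real.pi) / τ) with hη
  have hη0 : 0 < η := by
    rw [hη]
    exact lt_min (div_pos (by linarith) hτ0) (div_pos (by linarith) hτ0)
  have hη1 : A * τ + η * τ ≤ μ := by
    have : η ≤ (μ - A * τ) / τ := min_le_left _ _
    rw [le_div_iff₀ hτ0] at this
    linarith
  have hη2 : 2 * Real.pi ≤ B * τ - η * τ := by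
    have : η ≤ (B * τ - 2 * Real.pi) / τ := min_le_right _ _
    rw [le_div_iff₀ hτ0] at this
    linarith
  -- the function `z` and its logarithm
  set z : ℝ → ℂ := fun t => (ag (sq m) (4 * m) t).1 with hz
  have hzc : Continuous z := (ag_cont (sq m) (4 * m)).1
  have hz0 : z 0 = 1 := by
    show (ag (sq m) (4 * m) 0).1 = 1
    rw [ag_zero]
  have hzd : HasDerivAt z ((A : ℂ) - B * Complex.I) 0 := by
    have := ag_deriv (sq m) (4 * m)
    rw [aa_sq] at this
    have e : (A : ℂ) - B * Complex.I = 2 * m - 2 * (m : ℂ) ^ 2 * Complex.I := by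
      rw [hA, hB]; push_cast; ring
    rw [e]
    exact this
  set Lg : ℝ → ℂ := fun t => Complex.log (z t) with hLg
  have hLg0 : Lg 0 = 0 := by
    show Complex.log (z 0) = 0
    rw [hz0, Complex.log_one]
  have hLgd : HasDerivAt Lg ((A : ℂ) - B * Complex.I) 0 := by
    have hs : z 0 ∈ Complex.slitPlane := by rw [hz0]; exact Complex.one_mem_slitPlane
    have := hzd.clog_real hs
    rw [hz0, div_one] at this
    exact this
  -- small times
  have hev1 : ∀ᶠ t in nhds (0 : ℝ), ‖Lg t - t * ((A : ℂ) - B * Complex.I)‖ ≤ η * ‖t‖ := by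
    have := (hasDerivAt_iff_isLittleO.mp hLgd).bound hη0
    filter_upwards [this] with t ht
    rw [hLg0, sub_zero, sub_zero, Complex.real_smul] at ht
    exact ht
  have hev2 : ∀ᶠ t in nhds (0 : ℝ), z t ∈ Complex.slitPlane := by
    apply hzc.continuousAt.eventually
    rw [hz0]
    exact Complex.isOpen_slitPlane.mem_nhds Complex.one_mem_slitPlane
  obtain ⟨r, hr0, hr⟩ := Metric.eventually_nhds_iff.mp (hev1.and hev2)
  obtain ⟨N, hN⟩ := exists_nat_gt (max (τ / r) τ)
  have hN1 : τ / r < N := lt_of_le_of_lt (le_max_left _ _) hN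
  have hN2 : τ < N := lt_of_le_of_lt (le_max_right _ _) hN
  have hN0 : (0 : ℝ) < N := lt_trans hτ0 hN2
  have hNn : N ≠ 0 := by
    rintro rfl
    simp at hN0
  set T : ℝ := τ / N with hT
  have hT0 : 0 < T := by positivity
  have hT1 : T ≤ 1 := by
    rw [hT, div_le_one hN0]; exact hN2.le
  have hTr : T < r := by
    rw [hT, div_lt_iff₀ hN0]
    rw [div_lt_iff₀ hr0] at hN1
    linarith
  have hNT : N * T = τ := by rw [hT]; field_simp
  have hsmall : ∀ t ∈ Set.Icc (0 : ℝ) T, ‖Lg t - t * ((A : ℂ) - B * Complex.I)‖ ≤ η * t ∧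
      z t ∈ Complex.slitPlane := by
    intro t ht
    have hd : dist t 0 < r := by
      rw [Real.dist_eq, sub_zero, abs_of_nonneg ht.1]
      linarith [ht.2]
    obtain ⟨h3, h4⟩ := hr hd
    rw [Real.norm_of_nonneg ht.1] at h3
    exact ⟨h3, h4⟩
  have hre : ∀ t ∈ Set.Icc (0 : ℝ) T, N * (Lg t).re ≤ μ := by
    intro t ht
    have h3 := (Complex.abs_re_le_norm _).trans (hsmall t ht).1
    have e : (Lg t - t * ((A : ℂ) - B * Complex.I)).re = (Lg t).re - t * A := by
      simp
    rw [e] at h3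
    have h4 := (abs_le.mp h3).2
    have h5 : N * (Lg t).re ≤ N * ((A + η) * T) := by
      apply mul_le_mul_of_nonneg_left _ hN0.le
      have : (A + η) * t ≤ (A + η) * T := mul_le_mul_of_nonneg_left ht.2 (by linarith)
      linarith
    have h6 : N * ((A + η) * T) = (A + η) * τ := by rw [← hNT]; ring
    linarith
  have him : N * (Lg T).im ≤ -(2 * Real.pi) := by
    have h3 := (Complex.abs_im_le_norm _).trans (hsmall T ⟨hT0.le, le_rfl⟩).1
    have e : (Lg T - T * ((A : ℂ) - B * Complex.I)).im = (Lg T).im + T * B := by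
      simp
    rw [e] at h3
    have h4 := (abs_le.mp h3).2
    have h5 : N * (Lg T).im ≤ N * (-(B - η) * T) := by
      apply mul_le_mul_of_nonneg_left _ hN0.le
      linarith
    have h6 : N * (-(B - η) * T) = -(B - η) * τ := by rw [← hNT]; ring
    linarith
  have hcont : ContinuousOn (fun t => N * (Lg t).im) (Set.Icc 0 T) := by
    apply ContinuousOn.mul continuousOn_const
    apply Complex.continuous_im.comp_continuousOn
    intro t ht
    apply ContinuousAt.continuousWithinAt
    exact (hzc.continuousAt).clog (hsmall t ht).2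
  -- the target
  obtain ⟨θ, hθ0, hθ1, hθ⟩ : ∃ θ : ℝ, 0 ≤ θ ∧ θ ≤ 2 * Real.pi ∧
      Complex.exp (-(θ : ℂ) * Complex.I) = Complex.exp (w.arg * Complex.I) := by
    rcases le_or_gt w.arg 0 with h | h
    · refine ⟨-w.arg, by linarith, ?_, ?_⟩
      · have := Complex.neg_pi_lt_arg w
        linarith
      · push_cast
        rw [neg_neg]
    · refine ⟨2 * Real.pi - w.arg, ?_, by linarith, ?_⟩
      · have := Complex.arg_le_pi w
        linarith
      · have e : -((2 * Real.pi - w.arg : ℝ) : ℂ) * Complex.I =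
            w.arg * Complex.I - 2 * Real.pi * Complex.I := by push_cast; ring
        rw [e, Complex.exp_sub, Complex.exp_two_pi_mul_I, div_one]
  have hIVT := intermediate_value_Icc' hT0.le hcont
  have hmem : -θ ∈ Set.Icc (N * (Lg T).im) (N * (Lg 0).im) := by
    rw [hLg0]
    simp only [Complex.zero_im, mul_zero]
    exact ⟨by linarith, by linarith⟩
  obtain ⟨t, ht, hte⟩ := hIVT hmem
  simp only at hte
  have hzt : z t ≠ 0 := Complex.slitPlane_ne_zero (hsmall t ht).2
  have hzW : z t ∈ WW := ag_mem (sq m) (sq_norm m) t ht.1 (ht.2.trans hT1) (4 * m) hzt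
  have hzN : (z t) ^ N = ((Real.exp (N * (Lg t).re) : ℝ) : ℂ) * Complex.exp (w.arg * Complex.I) := by
    have e1 : z t = Complex.exp (Lg t) := (Complex.exp_log hzt).symm
    rw [e1, ← Complex.exp_nat_mul]
    have e2 : (N : ℂ) * Lg t = ((N * (Lg t).re : ℝ) : ℂ) + -(θ : ℂ) * Complex.I := by
      apply Complex.ext
      · simp
      · simp
        linarith
    rw [e2, Complex.exp_add, hθ, Complex.ofReal_exp]
  set b : ℝ := ‖w‖ / Real.exp (N * (Lg t).re) with hb
  have hb1 : 1 ≤ b := by
    rw [hb, one_le_div (Real.exp_pos _), ← hexpμ]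
    exact Real.exp_le_exp.mpr (hre t ht)
  have hfin : w = (b : ℂ) * (z t) ^ N := by
    rw [hzN, hb]
    have h3 : ((Real.exp (N * (Lg t).re) : ℝ) : ℂ) ≠ 0 := by
      exact_mod_cast (Real.exp_pos _).ne'
    push_cast
    push_cast at h3
    rw [← mul_assoc, div_mul_cancel₀ _ h3]
    exact (Complex.norm_mul_exp_arg_mul_I w).symm
  rw [hfin]
  exact mul_mem (real_mem b hb1) (pow_mem hzW N)

end Pool.Agent.Y416.TA
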