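import Pool.Agent.Y416.TA.Path
import Pool.Agent.Y416.TA.Reach

/-!
# Spinors, the growth identity and the realisation by configurations
-/

open Finset ComplexConjugate
open Pool.Agent.Results.MP_84cbe7_co.TreeAmplitude (E3 omega IsSpinorChoice IsHalf firstPreserving
  amplitude Admissible IsUnitSpinor unitDir dotSigma pauli1 pauli2 pauli3)

namespace Pool.Agent.Y416.TA

/-- the orthogonal spinor -/
noncomputable def JJ (a : Fin 2 → ℂ) : Fin 2 → ℂ := ![-conj (a 1), conj (a 0)]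

@[simp] lemma JJ_zero (a : Fin 2 → ℂ) : JJ a 0 = -conj (a 1) := rfl
@[simp] lemma JJ_one (a : Fin 2 → ℂ) : JJ a 1 = conj (a 0) := rfl

/-- unit spinors -/
def IsU (a : Fin 2 → ℂ) : Prop := a 0 * conj (a 0) + a 1 * conj (a 1) = 1

lemma isU_iff (a : Fin 2 → ℂ) : IsU a ↔ ‖a 0‖ ^ 2 + ‖a 1‖ ^ 2 = 1 := by
  unfold IsU
  rw [Complex.mul_conj, Complex.mul_conj, Complex.normSq_eq_norm_sq, Complex.normSq_eq_norm_sq]
  constructor
  · intro h; exact_mod_cast h
  · intro h; exact_mod_cast h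

lemma omega_JJ {a : Fin 2 → ℂ} (h : IsU a) : omega a (JJ a) = 1 := by
  unfold IsU at h
  simp only [omega, JJ_zero, JJ_one]
  linear_combination h

lemma omega_self (a : Fin 2 → ℂ) : omega a a = 0 := by simp only [omega]; ring

lemma omega_anti (a b : Fin 2 → ℂ) : omega a b = - omega b a := by simp only [omega]; ring

lemma JJ_decomp {e f : Fin 2 → ℂ} (hf : IsU f) :
    JJ e = conj (omega e f) • f + omega f (JJ e) • JJ f := by
  unfold IsU at hf
  ext i
  fin_cases i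
  · simp only [Fin.zero_eta, Fin.isValue, Pi.add_apply, Pi.smul_apply, smul_eq_mul, omega,
      JJ_zero, JJ_one, map_sub, map_mul]
    linear_combination (conj (e 1)) * hf
  · simp only [Fin.mk_one, Fin.isValue, Pi.add_apply, Pi.smul_apply, smul_eq_mul, omega,
      JJ_zero, JJ_one, map_sub, map_mul]
    linear_combination (-conj (e 0)) * hf

lemma cd_one {e f : Fin 2 → ℂ} (he : IsU e) (hf : IsU f) :
    omega f (JJ e) * conj (omega f (JJ e)) + omega e f * conj (omega e f) = 1 := by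
  unfold IsU at he hf
  simp only [omega, JJ_zero, JJ_one, map_sub, map_mul, map_neg, Complex.conj_conj]
  linear_combination (f 0 * conj (f 0) + f 1 * conj (f 1)) * he + hf

/-! ### The recursion -/

section rec
variable (e : ℕ → Fin 2 → ℂ)

/-- the auxiliary quantity -/
noncomputable def XX (v : ℂ × ℂ) (k : ℕ) : ℂ :=
  v.1 * omega (e k) (e (k + 1)) - v.2 * omega (e (k + 1)) (JJ (e k))

/-- the coordinates of the partial contractions -/
noncomputable def ab : ℕ → ℂ × ℂ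
  | 0 => (1, 0)
  | (k + 1) => ((ab k).1 + XX e (ab k) k * conj (omega (e k) (e (k + 1))),
      XX e (ab k) k * omega (e (k + 1)) (JJ (e k)))

lemma LL_ab (A : ℕ → Bool → Fin 2 → ℂ) (lam : ℕ → ℂ) (n : ℕ)
    (hU : ∀ k ≤ n, IsU (A k false)) (hA : ∀ k ≤ n, A k true = lam k • JJ (A k false)) :
    ∀ k ≤ n, LL A k = (∏ j ∈ range k, lam j) • ((ab (fun j => A j false) k).1 • A k false +
      (ab (fun j => A j false) k).2 • JJ (A k false)) := by
  intro k
  induction k with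
  | zero => intro _; simp [LL, ab]
  | succ k ih =>
    intro hk
    have hk' : k ≤ n := by omega
    rw [LL, ih hk', hA k hk', Finset.prod_range_succ, ab]
    set P : ℂ := ∏ j ∈ range k, lam j
    set α : ℂ := (ab (fun j => A j false) k).1 with hα
    set β : ℂ := (ab (fun j => A j false) k).2 with hβ
    set a : Fin 2 → ℂ := A k false with ha
    set f : Fin 2 → ℂ := A (k + 1) false with hf
    have hfU : IsU f := hU (k + 1) hk
    have haU : IsU a := hU k hk'
    have h1 : omega (P • (α • a + β • JJ a)) (lam k • JJ a) = P * lam k * α := by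
      rw [omega_smul_right, omega_smul_left, omega_add_left, omega_smul_left, omega_smul_left,
        omega_JJ haU, omega_self]
      ring
    have h2 : omega (P • (α • a + β • JJ a)) f = P * (α * omega a f - β * omega f (JJ a)) := by
      rw [omega_smul_left, omega_add_left, omega_smul_left, omega_smul_left, omega_anti (JJ a) f]
      ring
    have h3 : XX (fun j => A j false) (ab (fun j => A j false) k) k =
        α * omega a f - β * omega f (JJ a) := rfl
    rw [h1, h2, h3]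
    have h4 := JJ_decomp (e := a) hfU
    set X : ℂ := α * omega a f - β * omega f (JJ a) with hX
    have h5 : (P * X) • lam k • JJ a = (P * lam k * X) • (conj (omega a f) • f +
        omega f (JJ a) • JJ f) := by
      rw [← h4, smul_smul]
      congr 1
      ring
    rw [h5]
    have h6 : omega ((fun j => A j false) k) ((fun j => A j false) (k + 1)) = omega a f := rfl
    have h7 : omega ((fun j => A j false) (k + 1)) (JJ ((fun j => A j false) k)) =
      omega f (JJ a) := rfl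
    rw [h6, h7]
    ext i
    simp only [Pi.add_apply, Pi.smul_apply, smul_eq_mul]
    ring

lemma quot_ab (A : ℕ → Bool → Fin 2 → ℂ) (lam : ℕ → ℂ) (n : ℕ)
    (hU : ∀ k ≤ n, IsU (A k false)) (hA : ∀ k ≤ n, A k true = lam k • JJ (A k false))
    (hl : ∀ k ≤ n, lam k ≠ 0) :
    omega (LL A n) (A n true) / ∏ k ∈ range (n + 1), omega (A k false) (A k true) =
      (ab (fun j => A j false) n).1 := by
  have h1 : ∏ k ∈ range (n + 1), omega (A k false) (A k true) = ∏ k ∈ range (n + 1), lam k := by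
    apply Finset.prod_congr rfl
    intro k hk
    rw [Finset.mem_range] at hk
    rw [hA k (by omega), omega_smul_right, omega_JJ (hU k (by omega)), mul_one]
  have h2 : omega (LL A n) (A n true) = (∏ k ∈ range (n + 1), lam k) *
      (ab (fun j => A j false) n).1 := by
    rw [LL_ab A lam n hU hA n le_rfl, hA n le_rfl, Finset.prod_range_succ, omega_smul_right,
      omega_smul_left, omega_add_left, omega_smul_left, omega_smul_left, omega_JJ (hU n le_rfl),
      omega_self]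
    ring
  have h3 : ∏ k ∈ range (n + 1), lam k ≠ 0 := by
    rw [Finset.prod_ne_zero_iff]
    intro k hk
    rw [Finset.mem_range] at hk
    exact hl k (by omega)
  rw [h1, h2, mul_div_cancel_left₀ _ h3]

/-- **The growth identity.** -/
lemma growth (v : ℂ × ℂ) (k : ℕ) (h0 : IsU (e k)) (h1 : IsU (e (k + 1))) :
    ‖v.1 + XX e v k * conj (omega (e k) (e (k + 1)))‖ ^ 2 -
      ‖XX e v k * omega (e (k + 1)) (JJ (e k))‖ ^ 2 =
    ‖v.1‖ ^ 2 - ‖v.2‖ ^ 2 + 3 * ‖omega (e k) (e (k + 1))‖ ^ 2 * ‖XX e v k‖ ^ 2 +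
      ‖conj (omega (e (k + 1)) (JJ (e k))) * XX e v k + v.2‖ ^ 2 := by
  have hcd := cd_one h0 h1
  set c : ℂ := omega (e (k + 1)) (JJ (e k)) with hc
  set d : ℂ := omega (e k) (e (k + 1)) with hd
  have hX : XX e v k = v.1 * d - v.2 * c := rfl
  rw [hX]
  have key : ∀ z : ℂ, ((‖z‖ ^ 2 : ℝ) : ℂ) = z * conj z := by
    intro z
    rw [Complex.mul_conj, Complex.normSq_eq_norm_sq]
  have : ((‖v.1 + (v.1 * d - v.2 * c) * conj d‖ ^ 2 - ‖(v.1 * d - v.2 * c) * c‖ ^ 2 : ℝ) : ℂ) =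
      ((‖v.1‖ ^ 2 - ‖v.2‖ ^ 2 + 3 * ‖d‖ ^ 2 * ‖v.1 * d - v.2 * c‖ ^ 2 +
      ‖conj c * (v.1 * d - v.2 * c) + v.2‖ ^ 2 : ℝ) : ℂ) := by
    have e1 : ((3 * ‖d‖ ^ 2 * ‖v.1 * d - v.2 * c‖ ^ 2 : ℝ) : ℂ) =
        3 * (d * conj d) * ((v.1 * d - v.2 * c) * conj (v.1 * d - v.2 * c)) := by
      rw [← key, ← key]; push_cast; ring
    rw [Complex.ofReal_sub, Complex.ofReal_add, Complex.ofReal_add, Complex.ofReal_sub, e1,
      key, key, key, key, key]
    simp only [map_add, map_sub, map_mul, Complex.conj_conj]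
    linear_combination (-2 * ((v.1 * d - v.2 * c) * (conj v.1 * conj d - conj v.2 * conj c))) * hcd
  exact_mod_cast this

lemma Q_ge (n : ℕ) (hU : ∀ k ≤ n, IsU (e k)) : ∀ k ≤ n,
    1 ≤ ‖(ab e k).1‖ ^ 2 - ‖(ab e k).2‖ ^ 2 := by
  intro k
  induction k with
  | zero => intro _; simp [ab]
  | succ k ih =>
    intro hk
    have h := growth e (ab e k) k (hU k (by omega)) (hU (k + 1) hk)
    have h' := ih (by omega)
    rw [ab]
    simp only
    rw [h]
    have p1 : 0 ≤ 3 * ‖omega (e k) (e (k + 1))‖ ^ 2 * ‖XX e (ab e k) k‖ ^ 2 := by positivity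
    have p2 : 0 ≤ ‖conj (omega (e (k + 1)) (JJ (e k))) * XX e (ab e k) k + (ab e k).2‖ ^ 2 := by
      positivity
    linarith

lemma Q_mono (n : ℕ) (hU : ∀ k ≤ n, IsU (e k)) : ∀ j k, j + k ≤ n →
    ‖(ab e j).1‖ ^ 2 - ‖(ab e j).2‖ ^ 2 ≤ ‖(ab e (j + k)).1‖ ^ 2 - ‖(ab e (j + k)).2‖ ^ 2 := by
  intro j k
  induction k with
  | zero => intro _; simp
  | succ k ih =>
    intro hk
    have h := growth e (ab e (j + k)) (j + k) (hU (j + k) (by omega)) (hU (j + k + 1) (by omega))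
    have h' := ih (by omega)
    rw [← add_assoc, ab]
    simp only
    rw [h]
    have p1 : 0 ≤ 3 * ‖omega (e (j + k)) (e (j + k + 1))‖ ^ 2 *
      ‖XX e (ab e (j + k)) (j + k)‖ ^ 2 := by positivity
    have p2 : 0 ≤ ‖conj (omega (e (j + k + 1)) (JJ (e (j + k)))) *
      XX e (ab e (j + k)) (j + k) + (ab e (j + k)).2‖ ^ 2 := by positivity
    linarith

lemma ab_dichotomy (n : ℕ) (hU : ∀ k ≤ n, IsU (e k)) :
    (ab e n).1 = 1 ∨ 1 < ‖(ab e n).1‖ := by
  rcases lt_or_ge 1 ‖(ab e n).1‖ with h | h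
  · right; exact h
  · left
    have hsq : ‖(ab e n).1‖ ^ 2 ≤ 1 := pow_le_one₀ (norm_nonneg _) h
    have hQn : ‖(ab e n).1‖ ^ 2 - ‖(ab e n).2‖ ^ 2 ≤ 1 := by
      have : 0 ≤ ‖(ab e n).2‖ ^ 2 := by positivity
      linarith
    have hall : ∀ k ≤ n, ‖(ab e k).1‖ ^ 2 - ‖(ab e k).2‖ ^ 2 = 1 := by
      intro k hk
      apply le_antisymm _ (Q_ge e n hU k hk)
      have := Q_mono e n hU k (n - k) (by omega)
      rw [Nat.add_sub_cancel' hk] at this
      linarith
    have hab : ∀ k ≤ n, ab e k = (1, 0) := by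
      intro k
      induction k with
      | zero => intro _; rfl
      | succ k ih =>
        intro hk
        have h1 := ih (by omega)
        have h2 := growth e (ab e k) k (hU k (by omega)) (hU (k + 1) hk)
        have h3 := hall (k + 1) hk
        rw [ab] at h3
        simp only at h3
        rw [h3] at h2
        have h4 := hall k (by omega)
        have hX : XX e (ab e k) k = omega (e k) (e (k + 1)) := by
          unfold XX
          rw [h1]
          simp
        have p2 : 0 ≤ ‖conj (omega (e (k + 1)) (JJ (e k))) * XX e (ab e k) k +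
          (ab e k).2‖ ^ 2 := by positivity
        have h5 : 3 * ‖omega (e k) (e (k + 1))‖ ^ 2 * ‖XX e (ab e k) k‖ ^ 2 ≤ 0 := by linarith
        rw [hX] at h5
        have h6 : ‖omega (e k) (e (k + 1))‖ ^ 2 * ‖omega (e k) (e (k + 1))‖ ^ 2 ≤ 0 := by linarith
        have h7 : omega (e k) (e (k + 1)) = 0 := by
          by_contra hne
          have : 0 < ‖omega (e k) (e (k + 1))‖ := norm_pos_iff.mpr hne
          have : 0 < ‖omega (e k) (e (k + 1))‖ ^ 2 * ‖omega (e k) (e (k + 1))‖ ^ 2 := by positivity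
          linarith
        rw [ab, hX, h7, h1]
        simp
    rw [hab n le_rfl]

end rec

/-! ### Unit spinors -/

lemma mulVec_sigma (v : E3) (ψ : Fin 2 → ℂ) :
    (dotSigma v).mulVec ψ = ![((v 2 : ℝ) : ℂ) * ψ 0 + ((v 0 : ℂ) - (v 1 : ℂ) * Complex.I) * ψ 1,
      ((v 0 : ℂ) + (v 1 : ℂ) * Complex.I) * ψ 0 - ((v 2 : ℝ) : ℂ) * ψ 1] := by
  ext i
  simp only [dotSigma, pauli1, pauli2, pauli3, Matrix.mulVec, dotProduct, Fin.sum_univ_two,
    Matrix.add_apply, Matrix.smul_apply, smul_eq_mul]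
  fin_cases i
  · simp [-mul_eq_mul_right_iff, -mul_eq_mul_left_iff]
    ring
  · simp [-mul_eq_mul_right_iff, -mul_eq_mul_left_iff]
    ring

lemma anti_spinor {v v' : E3} (hv : v' = -v) {ψ ψ' : Fin 2 → ℂ} (h : IsUnitSpinor v ψ)
    (h' : IsUnitSpinor v' ψ') : ∃ l : ℂ, l ≠ 0 ∧ ψ' = l • JJ ψ := by
  subst hv
  obtain ⟨h1, h2⟩ := h
  obtain ⟨h1', h2'⟩ := h'
  have hU : IsU ψ := (isU_iff ψ).mpr h1
  rw [mulVec_sigma] at h2 h2'
  have a0 := congrFun h2 0
  have a1 := congrFun h2 1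
  have b0 := congrFun h2' 0
  have b1 := congrFun h2' 1
  simp only [Matrix.cons_val_zero, Matrix.cons_val_one, PiLp.neg_apply, Complex.ofReal_neg]
    at a0 a1 b0 b1
  have c0 := congrArg (starRingEnd ℂ) a0
  have c1 := congrArg (starRingEnd ℂ) a1
  simp only [map_add, map_sub, map_mul, Complex.conj_ofReal, Complex.conj_I] at c0 c1
  have orth : conj (ψ 0) * ψ' 0 + conj (ψ 1) * ψ' 1 = 0 := by
    linear_combination (-1 / 2 : ℂ) * ψ' 0 * c0 - (1 / 2 : ℂ) * ψ' 1 * c1 -
      (1 / 2 : ℂ) * conj (ψ 0) * b0 - (1 / 2 : ℂ) * conj (ψ 1) * b1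
  have hform : ψ' = omega ψ ψ' • JJ ψ := by
    unfold IsU at hU
    ext i
    fin_cases i
    · simp only [Fin.zero_eta, Fin.isValue, Pi.smul_apply, smul_eq_mul, omega, JJ_zero]
      linear_combination (-ψ' 0) * hU + ψ 0 * orth
    · simp only [Fin.mk_one, Fin.isValue, Pi.smul_apply, smul_eq_mul, omega, JJ_one]
      linear_combination (-ψ' 1) * hU + ψ 1 * orth
  refine ⟨omega ψ ψ', ?_, hform⟩
  intro h0
  rw [h0, zero_smul] at hform
  rw [hform] at h1'
  simp at h1'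

/-- the direction of a spinor -/
noncomputable def bloch (a : Fin 2 → ℂ) : E3 :=
  !₂[2 * (conj (a 0) * a 1).re, 2 * (conj (a 0) * a 1).im, ‖a 0‖ ^ 2 - ‖a 1‖ ^ 2]

lemma bloch_mulVec {a : Fin 2 → ℂ} (ha : IsU a) (ψ : Fin 2 → ℂ) :
    (dotSigma (bloch a)).mulVec ψ = (2 * (conj (a 0) * ψ 0 + conj (a 1) * ψ 1)) • a - ψ := by
  have e0 : (bloch a 0 : ℝ) = 2 * (conj (a 0) * a 1).re := rfl
  have e1 : (bloch a 1 : ℝ) = 2 * (conj (a 0) * a 1).im := rfl
  have e2 : (bloch a 2 : ℝ) = ‖a 0‖ ^ 2 - ‖a 1‖ ^ 2 := rfl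
  rw [mulVec_sigma, e0, e1, e2]
  have k1 : ((2 * (conj (a 0) * a 1).re : ℝ) : ℂ) + ((2 * (conj (a 0) * a 1).im : ℝ) : ℂ) *
      Complex.I = 2 * (conj (a 0) * a 1) := by
    have := Complex.re_add_im (conj (a 0) * a 1)
    push_cast
    linear_combination 2 * this
  have k2 : ((2 * (conj (a 0) * a 1).re : ℝ) : ℂ) - ((2 * (conj (a 0) * a 1).im : ℝ) : ℂ) *
      Complex.I = 2 * (a 0 * conj (a 1)) := by
    have := congrArg (starRingEnd ℂ) k1
    simp only [map_add, map_mul, Complex.conj_ofReal, Complex.conj_I, Complex.conj_conj,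
      map_ofNat] at this
    linear_combination this
  have k3 : ((‖a 0‖ ^ 2 - ‖a 1‖ ^ 2 : ℝ) : ℂ) = a 0 * conj (a 0) - a 1 * conj (a 1) := by
    rw [Complex.mul_conj, Complex.mul_conj, Complex.normSq_eq_norm_sq, Complex.normSq_eq_norm_sq]
    push_cast
    ring
  unfold IsU at ha
  rw [k1, k2, k3]
  ext i
  fin_cases i
  · simp
    linear_combination (-ψ 0) * ha
  · simp
    linear_combination (-ψ 1) * ha

lemma bloch_norm {a : Fin 2 → ℂ} (ha : IsU a) : ‖bloch a‖ = 1 := by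
  have h := (isU_iff a).mp ha
  have hsq : ‖bloch a‖ ^ 2 = 1 := by
    rw [EuclideanSpace.norm_sq_eq, Fin.sum_univ_three]
    have e0 : (bloch a 0 : ℝ) = 2 * (conj (a 0) * a 1).re := rfl
    have e1 : (bloch a 1 : ℝ) = 2 * (conj (a 0) * a 1).im := rfl
    have e2 : (bloch a 2 : ℝ) = ‖a 0‖ ^ 2 - ‖a 1‖ ^ 2 := rfl
    rw [e0, e1, e2, Real.norm_eq_abs, Real.norm_eq_abs, Real.norm_eq_abs, sq_abs, sq_abs, sq_abs]
    have h2 : (conj (a 0) * a 1).re ^ 2 + (conj (a 0) * a 1).im ^ 2 = ‖a 0‖ ^ 2 * ‖a 1‖ ^ 2 := by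
      have h3 : ‖conj (a 0) * a 1‖ ^ 2 = ‖a 0‖ ^ 2 * ‖a 1‖ ^ 2 := by
        rw [norm_mul, Complex.norm_conj, mul_pow]
      rw [← h3, ← Complex.normSq_eq_norm_sq, Complex.normSq_apply]
      ring
    nlinarith [h2, h]
  have h0 := norm_nonneg (bloch a)
  nlinarith

lemma bloch_spinor {a : Fin 2 → ℂ} (ha : IsU a) : IsUnitSpinor (bloch a) a := by
  refine ⟨(isU_iff a).mp ha, ?_⟩
  rw [bloch_mulVec ha]
  have : conj (a 0) * a 0 + conj (a 1) * a 1 = 1 := by
    unfold IsU at ha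
    linear_combination ha
  rw [this]
  ext i
  simp only [Pi.sub_apply, Pi.smul_apply, smul_eq_mul]
  ring

lemma neg_mulVec (v : E3) (ψ : Fin 2 → ℂ) :
    (dotSigma (-v)).mulVec ψ = -(dotSigma v).mulVec ψ := by
  rw [mulVec_sigma, mulVec_sigma]
  ext i
  fin_cases i
  · simp
    ring
  · simp
    ring

lemma JJ_isU {a : Fin 2 → ℂ} (ha : IsU a) : IsU (JJ a) := by
  unfold IsU at ha ⊢
  simp only [JJ_zero, JJ_one, map_neg, Complex.conj_conj]
  linear_combination ha

lemma bloch_spinor_neg {a : Fin 2 → ℂ} (ha : IsU a) : IsUnitSpinor (-bloch a) (JJ a) := by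
  refine ⟨(isU_iff _).mp (JJ_isU ha), ?_⟩
  rw [neg_mulVec, bloch_mulVec ha]
  have : conj (a 0) * JJ a 0 + conj (a 1) * JJ a 1 = 0 := by
    simp only [JJ_zero, JJ_one]; ring
  rw [this]
  ext i
  simp

lemma bloch_unique {a : Fin 2 → ℂ} (ha : IsU a) {ψ : Fin 2 → ℂ} (h : IsUnitSpinor (bloch a) ψ) :
    ∃ p : ℂ, p ≠ 0 ∧ ψ = p • a := by
  obtain ⟨h1, h2⟩ := h
  rw [bloch_mulVec ha] at h2
  refine ⟨conj (a 0) * ψ 0 + conj (a 1) * ψ 1, ?_, ?_⟩
  · intro h0
    rw [h0] at h2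
    have h3 : ψ = 0 := by
      ext i
      have := congrFun h2 i
      simp only [mul_zero, zero_smul, Pi.sub_apply, Pi.zero_apply, zero_sub] at this
      show ψ i = 0
      linear_combination (-1 / 2 : ℂ) * this
    rw [h3] at h1
    simp at h1
  · ext i
    have := congrFun h2 i
    simp only [Pi.sub_apply, Pi.smul_apply, smul_eq_mul] at this ⊢
    linear_combination (-1 / 2 : ℂ) * this

end Pool.Agent.Y416.TA
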